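import Pool.Agent.N816.RQ.Sw

/-!
# Project RQ: evaluation of the divisor sums, `S_C2J21'`, `S_C2J21n'`, `S_C2J15'`, `S_C2J15n'`,
`S_C2Jp` (helper816)
-/

set_option autoImplicit false

namespace Pool.Agent.N816.RQ

open Finset
open Pool.Agent.Z700 (hh fac)
open Pool.Agent.N969.P15 (c2 tw)
open Pool.Agent.N969.RQ
open Pool.Agent.N975.PG (jac_zero jac_sq jac_congr)
open Pool.Agent.N975.RQ (fd_sq fd_pos un_symm)
open Pool.Agent.N218.RQ (odd_part)

theorem l_nd {D l : ℕ} (hl : l.Prime) (h : jacobiSym D l = -1) : ¬ l ∣ D := by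
  intro h1
  rw [jac_zero hl (Int.natCast_dvd_natCast.2 h1)] at h
  norm_num at h

/-- the common part -/
theorem W_main {N D d l : ℕ} (hN : Squarefree N) (hN2 : ¬ 2 ∣ N) (hD : Fd D) (hd : Un D d)
    (hs : sgd D d = 1) (hl : l.Prime) (hl4 : l % 4 = 3) (hj : jacobiSym D l = -1) {t : ℤ} {m : ℕ}
    (hm0 : 0 < m) (hm : (m : ℤ) = D * l ^ 2 - t ^ 2) (ht : ¬ (l : ℤ) ∣ t) (hNm : 4 * N ∣ m) :
    ∃ d0, ((d0 = d ∧ nn D d l = d * l) ∨ (d0 = D / d ∧ nn D d l = D / d * l)) ∧ Squarefree d0 ∧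
      d0 * l % 4 = 3 ∧ m / 4 ≠ 0 ∧ m = 4 * (m / 4) ∧ ¬ l ∣ m / 4 ∧
      W N D d l (m / 4) = tw (d0 * l) m *
        ∏ q ∈ m.primeFactors.erase 2, if q ∣ N then Lv d0 l (m / 4) q else fac (d0 * l) m q := by
  have h4 : 4 * (m / 4) = m := Nat.mul_div_cancel' ((dvd_mul_right 4 N).trans hNm)
  have hl2 : l ≠ 2 := by rintro rfl; omega
  have hlD := l_nd hl hj
  have hM0 : m / 4 ≠ 0 := by omega
  have hNM : N ∣ m / 4 := by
    rw [← h4] at hNm
    exact Nat.dvd_of_mul_dvd_mul_left (by norm_num) hNm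
  have hM : t ^ 2 + 4 * ((m / 4 : ℕ) : ℤ) = D * l ^ 2 := by
    have : ((4 * (m / 4) : ℕ) : ℤ) = m := by rw [h4]
    rw [hm] at this
    push_cast at this ⊢
    linarith
  have hlM := lM hl hM ht
  obtain ⟨k1, k2⟩ := odd_part hD hd hs
  have k3 : ∀ x, x % 4 = 1 → x * l % 4 = 3 := fun x hx => by rw [Nat.mul_mod, hx, hl4]
  by_cases h2 : 2 ∣ d
  · rw [if_pos h2] at k1 k2
    refine ⟨D / d, Or.inr ⟨rfl, if_pos h2⟩, k1, k3 _ k2, hM0, h4.symm, hlM, ?_⟩
    rw [← W_sw hD hd hl hl2 hlD hM ht, W_odd hN hN2 hNM hM0 k1 hl (k3 _ k2) hlM, h4]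
  · rw [if_neg h2] at k1 k2
    refine ⟨d, Or.inl ⟨rfl, if_neg h2⟩, k1, k3 _ k2, hM0, h4.symm, hlM, ?_⟩
    rw [W_odd hN hN2 hNM hM0 k1 hl (k3 _ k2) hlM, h4]

theorem prod_lev1 {m p : ℕ} (hp : p.Prime) (hpm : p ∣ m) (hm : m ≠ 0) (hp2 : p ≠ 2)
    (X F : ℕ → ℤ) :
    ∏ q ∈ m.primeFactors.erase 2, (if q ∣ p then X q else F q) =
      X p * ∏ q ∈ (m.primeFactors.erase 2).erase p, F q := by
  have h1 : p ∈ m.primeFactors.erase 2 :=
    Finset.mem_erase.2 ⟨hp2, Nat.mem_primeFactors.2 ⟨hp, hpm, hm⟩⟩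
  rw [← Finset.mul_prod_erase _ _ h1, if_pos dvd_rfl]
  congr 1
  refine Finset.prod_congr rfl fun q hq => ?_
  obtain ⟨h2, h3⟩ := Finset.mem_erase.1 hq
  rw [if_neg]
  intro h4
  exact h2 ((Nat.prime_dvd_prime_iff_eq
    (Nat.prime_of_mem_primeFactors (Finset.mem_of_mem_erase h3)) hp).1 h4)

theorem prod_lev2 {m p p' : ℕ} (hp : p.Prime) (hp' : p'.Prime) (hpm : p ∣ m) (hpm' : p' ∣ m)
    (hm : m ≠ 0) (hp2 : p ≠ 2) (hp2' : p' ≠ 2) (hne : p' ≠ p) (X F : ℕ → ℤ) :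
    ∏ q ∈ m.primeFactors.erase 2, (if q ∣ p * p' then X q else F q) =
      X p * (X p' * ∏ q ∈ ((m.primeFactors.erase 2).erase p).erase p', F q) := by
  have h1 : p ∈ m.primeFactors.erase 2 :=
    Finset.mem_erase.2 ⟨hp2, Nat.mem_primeFactors.2 ⟨hp, hpm, hm⟩⟩
  have h1' : p' ∈ (m.primeFactors.erase 2).erase p :=
    Finset.mem_erase.2 ⟨hne, Finset.mem_erase.2 ⟨hp2', Nat.mem_primeFactors.2 ⟨hp', hpm', hm⟩⟩⟩
  rw [← Finset.mul_prod_erase _ _ h1, if_pos (dvd_mul_right p p'), ← Finset.mul_prod_erase _ _ h1',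
    if_pos (dvd_mul_left p' p)]
  congr 1
  congr 1
  refine Finset.prod_congr rfl fun q hq => ?_
  obtain ⟨h2, h3⟩ := Finset.mem_erase.1 hq
  obtain ⟨h4, h5⟩ := Finset.mem_erase.1 h3
  have hqp := Nat.prime_of_mem_primeFactors (Finset.mem_of_mem_erase h5)
  rw [if_neg]
  intro h6
  rcases hqp.dvd_mul.1 h6 with h7 | h7
  · exact h4 ((Nat.prime_dvd_prime_iff_eq hqp hp).1 h7)
  · exact h2 ((Nat.prime_dvd_prime_iff_eq hqp hp').1 h7)

/-- the symbols of `d` and `D / d` at a split prime -/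
theorem jac_swap {D d p : ℕ} (hp : p.Prime) (hd : d ∣ D) (h : jacobiSym D p = 1) :
    jacobiSym (D / d : ℕ) p = jacobiSym d p := by
  have e : ((d * (D / d) : ℕ) : ℤ) = D := by rw [Nat.mul_div_cancel' hd]
  have hnd : ¬ p ∣ D := by
    intro h1
    rw [jac_zero hp (Int.natCast_dvd_natCast.2 h1)] at h
    norm_num at h
  have h1 : jacobiSym d p * jacobiSym (D / d : ℕ) p = 1 := by
    rw [← jacobiSym.mul_left, ← Nat.cast_mul, e, h]
  have h2 := jsq hp (fun h3 => hnd (h3.trans hd) : ¬ p ∣ d)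
  linear_combination (-jacobiSym (D / d : ℕ) p) * h2 + jacobiSym d p * h1

theorem js_neg {p d l : ℕ} : jacobiSym (-((d * l : ℕ) : ℤ)) p =
    jacobiSym d p * jacobiSym (-(l : ℤ)) p := by
  rw [← jacobiSym.mul_left]
  congr 1
  push_cast
  ring

theorem jm3 {n : ℕ} (h : n % 3 = 1) : jacobiSym (-(n : ℤ)) 3 = -1 := by
  rw [jacobiSym.mod_left, show (-(n : ℤ)) % ((3 : ℕ) : ℤ) = 2 by push_cast; omega]
  norm_num

theorem jm3' {n : ℕ} (h : n % 3 = 2) : jacobiSym (-(n : ℤ)) 3 = 1 := by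
  rw [jacobiSym.mod_left, show (-(n : ℤ)) % ((3 : ℕ) : ℤ) = 1 by push_cast; omega]
  norm_num

theorem jp3 {n : ℕ} (h : n % 3 = 1) : jacobiSym (n : ℤ) 3 = 1 := by
  rw [jacobiSym.mod_left, show (n : ℤ) % ((3 : ℕ) : ℤ) = 1 by push_cast; omega]
  norm_num

theorem jm7 {n : ℕ} (h : N877.P21.Sp7 n) : jacobiSym (-(n : ℤ)) 7 = 1 := by
  rw [jacobiSym.mod_left]
  rcases h with h | h | h
  · rw [show (-(n : ℤ)) % ((7 : ℕ) : ℤ) = 4 by push_cast; omega]; norm_num
  · rw [show (-(n : ℤ)) % ((7 : ℕ) : ℤ) = 2 by push_cast; omega]; norm_num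
  · rw [show (-(n : ℤ)) % ((7 : ℕ) : ℤ) = 1 by push_cast; omega]; norm_num

theorem jm5 {n : ℕ} (h : n % 5 = 2 ∨ n % 5 = 3) : jacobiSym (-(n : ℤ)) 5 = -1 := by
  rw [jacobiSym.mod_left]
  rcases h with h | h
  · rw [show (-(n : ℤ)) % ((5 : ℕ) : ℤ) = 3 by push_cast; omega]; norm_num
  · rw [show (-(n : ℤ)) % ((5 : ℕ) : ℤ) = 2 by push_cast; omega]; norm_num

theorem nd_of_jac {p : ℕ} (hp : p.Prime) {a : ℕ} (h : jacobiSym a p ≠ 0) : ¬ p ∣ a := fun h1 =>
  h (jac_zero hp (Int.natCast_dvd_natCast.2 h1))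

/-- the factor at a level prime `q` dividing `D` is one -/
theorem Lv_one {D d l q : ℕ} (hD : Fd D) (hd : d ∣ D) (hds : Squarefree d) (hl : l.Prime)
    (h4 : d * l % 4 = 3)
    (hq : q.Prime) (hq2 : q ≠ 2) (hqD : q ∣ D) (hql : jacobiSym (-(l : ℤ)) q = 1)
    (hjd : jacobiSym d q = 1 ∨ jacobiSym (D / d : ℕ) q = 1) {t : ℤ} {m : ℕ} (hm0 : 0 < m)
    (hm : (m : ℤ) = D * l ^ 2 - t ^ 2) (h4m : m = 4 * (m / 4)) (hqm : q ∣ m) :
    Lv d l (m / 4) q = 1 := by
  have hqp : Prime (q : ℤ) := Nat.prime_iff_prime_int.1 hq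
  have hM0 : m / 4 ≠ 0 := by omega
  have hql' : ¬ q ∣ l := fun h => by
    rw [jac_zero hq (by obtain ⟨c, hc⟩ := h; exact ⟨-(c : ℤ), by rw [hc]; push_cast; ring⟩)] at hql
    norm_num at hql
  obtain ⟨D', hD'⟩ := hqD
  have hqD' : ¬ q ∣ D' := fun h => by
    apply fd_sq hD hq hq2
    rw [hD']
    exact mul_dvd_mul_left q h
  have hqt : (q : ℤ) ∣ t := by
    apply hqp.dvd_of_dvd_pow (n := 2)
    have e : t ^ 2 = D * l ^ 2 - m := by rw [hm]; ring
    rw [e, hD']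
    refine Dvd.dvd.sub ?_ (Int.natCast_dvd_natCast.2 hqm)
    push_cast
    exact ⟨(D' : ℤ) * l ^ 2, by ring⟩
  obtain ⟨t', ht'⟩ := hqt
  obtain ⟨m', hm'⟩ := hqm
  have hq0 : (q : ℤ) ≠ 0 := hqp.ne_zero
  have e1 : (m' : ℤ) = D' * l ^ 2 - q * t' ^ 2 := by
    have : (q : ℤ) * m' = q * (D' * l ^ 2 - q * t' ^ 2) := by
      have h1 : ((q * m' : ℕ) : ℤ) = m := by rw [← hm']
      push_cast at h1
      rw [h1, hm, hD', ht']
      push_cast
      ring
    exact mul_left_cancel₀ hq0 this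
  have hqm' : ¬ q ∣ m' := by
    intro h
    have h1 : (q : ℤ) ∣ D' * l ^ 2 := by
      have e2 : (D' : ℤ) * l ^ 2 = m' + q * t' ^ 2 := by rw [e1]; ring
      rw [e2]
      exact (Int.natCast_dvd_natCast.2 h).add (dvd_mul_right _ _)
    rcases hqp.dvd_mul.1 h1 with h2 | h2
    · exact hqD' (Int.natCast_dvd_natCast.1 h2)
    · exact hql' (Int.natCast_dvd_natCast.1 (hqp.dvd_of_dvd_pow h2))
  have hm'0 : m' ≠ 0 := by rintro rfl; exact hqm' (dvd_zero q)
  have hfm : m.factorization q = 1 := by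
    rw [hm', Nat.factorization_mul hq.ne_zero hm'0, Finsupp.add_apply, hq.factorization_self,
      Nat.factorization_eq_zero_of_not_dvd hqm']
  have hfM : (m / 4).factorization q = 1 := by
    rw [← fac_split hM0 hq hq2, ← h4m, hfm]
  by_cases hqd : q ∣ d
  · rw [Lv_div hM0 hds h4 hq hq2 hqd hql' hfM, ← h4m]
    unfold hh
    rw [hfm, if_neg (by decide), pow_one]
    obtain ⟨d', hd'⟩ := hqd
    have e2 : m / q = m' := by rw [hm']; exact Nat.mul_div_cancel_left _ hq.pos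
    have e3 : d * l / q = d' * l := by
      rw [hd', mul_assoc]; exact Nat.mul_div_cancel_left _ hq.pos
    rw [e2, e3]
    obtain ⟨e, he⟩ := hd
    have hd0 : 0 < d := Nat.pos_of_ne_zero hds.ne_zero
    have e4 : D / d = e := by rw [he]; exact Nat.mul_div_cancel_left _ hd0
    have e5 : D' = d' * e := by
      have h1 : q * D' = q * (d' * e) := by rw [← hD', he, hd']; ring
      exact Nat.eq_of_mul_eq_mul_left hq.pos h1
    have hje : jacobiSym (e : ℤ) q = 1 := by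
      rcases hjd with h | h
      · exfalso
        rw [jac_zero hq (Int.natCast_dvd_natCast.2 ⟨d', hd'⟩)] at h
        norm_num at h
      · rwa [e4] at h
    have hqd' : ¬ q ∣ d' := fun h => hqD' (by rw [e5]; exact h.mul_right e)
    have e6 : jacobiSym (-((d' * l * m' : ℕ) : ℤ)) q =
        jacobiSym ((d' : ℤ) ^ 2 * (l : ℤ) ^ 2 * e * (-(l : ℤ))) q := by
      apply jac_congr
      have : (-((d' * l * m' : ℕ) : ℤ)) - (d' : ℤ) ^ 2 * (l : ℤ) ^ 2 * e * (-(l : ℤ)) =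
          q * (d' * l * t' ^ 2) := by
        push_cast
        rw [e1, e5]
        push_cast
        ring
      rw [this]
      exact dvd_mul_right _ _
    rw [e6, jacobiSym.mul_left, jacobiSym.mul_left, jacobiSym.mul_left, jacobiSym.pow_left,
      jacobiSym.pow_left, jac_sq hq (nd_int hqd'), jac_sq hq (nd_int hql'), hje, hql]
    norm_num
  · have hjd' : jacobiSym d q = 1 := by
      rcases hjd with h | h
      · exact h
      · exfalso
        obtain ⟨e, he⟩ := hd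
        have hd0 : 0 < d := Nat.pos_of_ne_zero hds.ne_zero
        have e4 : D / d = e := by rw [he]; exact Nat.mul_div_cancel_left _ hd0
        have h1 : q ∣ d * e := by rw [← he, hD']; exact dvd_mul_right _ _
        have h2 : q ∣ e := (hq.dvd_mul.1 h1).resolve_left hqd
        rw [e4, jac_zero hq (Int.natCast_dvd_natCast.2 h2)] at h
        norm_num at h
    rw [Lv_lev hM0 hds hl h4 hq hq2 hqd (by rw [js_neg, hjd', hql, one_mul]), ← h4m, hfm]
    norm_num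

/-! ### the levels `3`, `5`, `7` -/

theorem t_C2Jp : S_C2Jp := by
  intro p hp D d l hD hjD hd hs hl hl4 hlp hj hr t m hm0 hm ht h4p
  have hpp : p.Prime := by rcases hp with rfl | rfl | rfl <;> norm_num
  have hp2 : p ≠ 2 := by rcases hp with rfl | rfl | rfl <;> norm_num
  obtain ⟨d0, h0, hsq, h4, hM0, h4m, hlM, hW⟩ := W_main hpp.squarefree
    (fun h => hp2 ((Nat.prime_dvd_prime_iff_eq Nat.prime_two hpp).1 h).symm) hD hd hs hl hl4 hj hm0
    hm ht h4p
  have hpm : p ∣ m := (dvd_mul_left p 4).trans h4p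
  rw [hW, prod_lev1 hpp hpm (by omega) hp2]
  have hjd : jacobiSym d0 p = jacobiSym d p := by
    rcases h0 with ⟨rfl, _⟩ | ⟨rfl, _⟩
    · rfl
    · exact jac_swap hpp hd.1 hjD
  have hr' : jacobiSym (-((d0 * l : ℕ) : ℤ)) p = -1 := by
    rw [js_neg, hjd, ← js_neg]; exact hr
  have hnd : ¬ p ∣ d0 := by
    intro h
    rw [js_neg, jac_zero hpp (Int.natCast_dvd_natCast.2 h), zero_mul] at hr'
    norm_num at hr'
  have hnn : nn D d l = d0 * l := by
    rcases h0 with ⟨rfl, h⟩ | ⟨rfl, h⟩ <;> exact h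
  rw [Lv_ram hM0 hsq hl h4 hpp hp2 hnd hr', hnn, ← h4m]
  unfold lcp
  split_ifs <;> ring

/-! ### level `21` -/

theorem r21_fd {D : ℕ} (h : R21 D ∨ R21r D) : Fd D := by
  rcases h with h | h <;> exact h.1

theorem t_C2J21' : S_C2J21' := by
  intro D d l hR hd hs hl hC hj t m hm0 hm ht h84 hj3 hj7
  have hD := r21_fd hR
  have hD3 : D % 3 = 1 := by rcases hR with h | h <;> exact h.2.1
  obtain ⟨d0, h0, hsq, h4, hM0, h4m, hlM, hW⟩ := W_main (N := 3 * 7)
    (by rw [Nat.squarefree_mul (by norm_num)]; exact ⟨Nat.prime_three.squarefree,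
      (by norm_num : Nat.Prime 7).squarefree⟩) (by norm_num) hD hd hs hl hC.2.1 hj hm0
    hm ht (by simpa using h84)
  have h3m : 3 ∣ m := (by norm_num : 3 ∣ 84).trans h84
  have h7m : 7 ∣ m := (by norm_num : 7 ∣ 84).trans h84
  have h3 := hC.2.2.1
  have h7 := hC.2.2.2
  have hj3' : jacobiSym d0 3 = 1 := by
    rcases h0 with ⟨rfl, _⟩ | ⟨rfl, _⟩
    · exact hj3
    · rw [jac_swap Nat.prime_three hd.1 (jp3 hD3)]; exact hj3
  have hj7' : jacobiSym d0 7 = 1 ∨ jacobiSym (D / d0 : ℕ) 7 = 1 := by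
    rcases h0 with ⟨rfl, _⟩ | ⟨rfl, _⟩
    · exact hj7
    · rw [Nat.div_div_self hd.1 (fd_pos hD).ne']; exact hj7.symm
  have hd0 : d0 ∣ D := by
    rcases h0 with ⟨rfl, _⟩ | ⟨rfl, _⟩
    · exact hd.1
    · exact Nat.div_dvd_of_dvd hd.1
  have hnn : nn D d l = d0 * l := by
    rcases h0 with ⟨rfl, h⟩ | ⟨rfl, h⟩ <;> exact h
  have h7L : Lv d0 l (m / 4) 7 = if 7 ∣ D then 1 else (m.factorization 7 : ℤ) := by
    by_cases h7D : 7 ∣ D
    · rw [if_pos h7D]
      exact Lv_one hD hd0 hsq hl h4 (by norm_num) (by norm_num) h7D (jm7 h7) hj7' hm0 hm h4m h7m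
    · rw [if_neg h7D]
      have hR' : R21 D := by
        rcases hR with h | h
        · exact h
        · exact absurd h.2.2 h7D
      have hj7'' : jacobiSym d0 7 = 1 := by
        rcases hj7' with h | h
        · exact h
        · rw [← h]
          exact (jac_swap (by norm_num) hd0 hR'.2.2).symm
      rw [Lv_lev hM0 hsq hl h4 (by norm_num) (by norm_num)
        (nd_of_jac (by norm_num) (by rw [hj7'']; norm_num))
        (by rw [js_neg, hj7'', jm7 h7, one_mul]), ← h4m]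
  show W 21 D d l (m / 4) = _
  have hW' : W 21 D d l (m / 4) = W (3 * 7) D d l (m / 4) := by norm_num
  rw [hW', hW, prod_lev2 Nat.prime_three (by norm_num) h3m h7m (by omega) (by norm_num)
    (by norm_num) (by norm_num), h7L, Lv_ram hM0 hsq hl h4 Nat.prime_three (by norm_num)
    (nd_of_jac Nat.prime_three (by rw [hj3']; norm_num))
    (by rw [js_neg, hj3', jm3 h3, one_mul]), hnn, ← h4m]
  unfold lcr
  split_ifs <;> ring

theorem t_C2J21n' : S_C2J21n' := by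
  intro D d l hR hd hs hl hC hj t m hm0 hm ht h84 hj3 hj7
  have hD := hR.1
  have hD3 : D % 3 = 1 := hR.2.1
  obtain ⟨d0, h0, hsq, h4, hM0, h4m, hlM, hW⟩ := W_main (N := 7 * 3)
    (by rw [Nat.squarefree_mul (by norm_num)]; exact ⟨(by norm_num : Nat.Prime 7).squarefree,
      Nat.prime_three.squarefree⟩) (by norm_num) hD hd hs hl hC.2.1 hj hm0
    hm ht (by simpa using h84)
  have h3m : 3 ∣ m := (by norm_num : 3 ∣ 84).trans h84
  have h7m : 7 ∣ m := (by norm_num : 7 ∣ 84).trans h84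
  have h3 := hC.2.2.1
  have h7 := hC.2.2.2
  have hj3' : jacobiSym d0 3 = -1 := by
    rcases h0 with ⟨rfl, _⟩ | ⟨rfl, _⟩
    · exact hj3
    · rw [jac_swap Nat.prime_three hd.1 (jp3 hD3)]; exact hj3
  have hj7' : jacobiSym d0 7 = -1 := by
    rcases h0 with ⟨rfl, _⟩ | ⟨rfl, _⟩
    · exact hj7
    · rw [jac_swap (by norm_num) hd.1 hR.2.2]; exact hj7
  have hnn : nn D d l = d0 * l := by
    rcases h0 with ⟨rfl, h⟩ | ⟨rfl, h⟩ <;> exact h
  have hW' : W 21 D d l (m / 4) = W (7 * 3) D d l (m / 4) := by norm_num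
  rw [hW', hW, prod_lev2 (by norm_num) Nat.prime_three h7m h3m (by omega) (by norm_num)
    (by norm_num) (by norm_num), Lv_ram hM0 hsq hl h4 (by norm_num) (by norm_num)
    (nd_of_jac (by norm_num) (by rw [hj7']; norm_num))
    (by rw [js_neg, hj7', jm7 h7]; norm_num), Lv_lev hM0 hsq hl h4 Nat.prime_three (by norm_num)
    (nd_of_jac Nat.prime_three (by rw [hj3']; norm_num))
    (by rw [js_neg, hj3', jm3 h3]; norm_num), hnn, ← h4m]
  unfold lcr
  split_ifs <;> ring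

/-! ### level `15` -/

theorem t_C2J15' : S_C2J15' := by
  intro D d l hR hd hs hl hC hj t m hm0 hm ht h60 hj5 hj3
  have hD : Fd D := by rcases hR with h | h <;> exact h.1
  have hD5 : jacobiSym D 5 = 1 := by rcases hR with h | h <;> exact h.2.2
  have hl4 : l % 4 = 3 := by have := hC.2; omega
  have h3 : l % 3 = 2 := by have := hC.2; omega
  have h5 : l % 5 = 2 ∨ l % 5 = 3 := by have := hC.2; omega
  obtain ⟨d0, h0, hsq, h4, hM0, h4m, hlM, hW⟩ := W_main (N := 5 * 3)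
    (by rw [Nat.squarefree_mul (by norm_num)]; exact ⟨Nat.prime_five.squarefree,
      Nat.prime_three.squarefree⟩) (by norm_num) hD hd hs hl hl4 hj hm0
    hm ht (by simpa using h60)
  have h3m : 3 ∣ m := (by norm_num : 3 ∣ 60).trans h60
  have h5m : 5 ∣ m := (by norm_num : 5 ∣ 60).trans h60
  have hj5' : jacobiSym d0 5 = 1 := by
    rcases h0 with ⟨rfl, _⟩ | ⟨rfl, _⟩
    · exact hj5
    · rw [jac_swap Nat.prime_five hd.1 hD5]; exact hj5
  have hj3' : jacobiSym d0 3 = 1 ∨ jacobiSym (D / d0 : ℕ) 3 = 1 := by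
    rcases h0 with ⟨rfl, _⟩ | ⟨rfl, _⟩
    · exact hj3
    · rw [Nat.div_div_self hd.1 (fd_pos hD).ne']; exact hj3.symm
  have hd0 : d0 ∣ D := by
    rcases h0 with ⟨rfl, _⟩ | ⟨rfl, _⟩
    · exact hd.1
    · exact Nat.div_dvd_of_dvd hd.1
  have hnn : nn D d l = d0 * l := by
    rcases h0 with ⟨rfl, h⟩ | ⟨rfl, h⟩ <;> exact h
  have h3L : Lv d0 l (m / 4) 3 = if 3 ∣ D then 1 else (m.factorization 3 : ℤ) := by
    by_cases h3D : 3 ∣ D
    · rw [if_pos h3D]
      exact Lv_one hD hd0 hsq hl h4 (by norm_num) (by norm_num) h3D (jm3' h3) hj3' hm0 hm h4m h3m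
    · rw [if_neg h3D]
      have hR' : R15 D := by
        rcases hR with h | h
        · exact h
        · exact absurd h.2.1 h3D
      have hj3'' : jacobiSym d0 3 = 1 := by
        rcases hj3' with h | h
        · exact h
        · rw [← h]
          exact (jac_swap (by norm_num) hd0 (jp3 hR'.2.1)).symm
      rw [Lv_lev hM0 hsq hl h4 (by norm_num) (by norm_num)
        (nd_of_jac (by norm_num) (by rw [hj3'']; norm_num))
        (by rw [js_neg, hj3'', jm3' h3, one_mul]), ← h4m]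
  have hW' : W 15 D d l (m / 4) = W (5 * 3) D d l (m / 4) := by norm_num
  rw [hW', hW, prod_lev2 Nat.prime_five (by norm_num) h5m h3m (by omega) (by norm_num)
    (by norm_num) (by norm_num), h3L, Lv_ram hM0 hsq hl h4 Nat.prime_five (by norm_num)
    (nd_of_jac Nat.prime_five (by rw [hj5']; norm_num))
    (by rw [js_neg, hj5', jm5 h5, one_mul]), hnn, ← h4m]
  unfold lcr
  split_ifs <;> ring

theorem t_C2J15n' : S_C2J15n' := by
  intro D d l hR hd hs hl hC hj t m hm0 hm ht h60 hj3 hj5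
  have hD := hR.1
  have hD3 : D % 3 = 1 := hR.2.1
  have hl4 : l % 4 = 3 := by have := hC.2; omega
  have h3 : l % 3 = 2 := by have := hC.2; omega
  have h5 : l % 5 = 2 ∨ l % 5 = 3 := by have := hC.2; omega
  obtain ⟨d0, h0, hsq, h4, hM0, h4m, hlM, hW⟩ := W_main (N := 3 * 5)
    (by rw [Nat.squarefree_mul (by norm_num)]; exact ⟨Nat.prime_three.squarefree,
      Nat.prime_five.squarefree⟩) (by norm_num) hD hd hs hl hl4 hj hm0
    hm ht (by simpa using h60)
  have h3m : 3 ∣ m := (by norm_num : 3 ∣ 60).trans h60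
  have h5m : 5 ∣ m := (by norm_num : 5 ∣ 60).trans h60
  have hj3' : jacobiSym d0 3 = -1 := by
    rcases h0 with ⟨rfl, _⟩ | ⟨rfl, _⟩
    · exact hj3
    · rw [jac_swap Nat.prime_three hd.1 (jp3 hD3)]; exact hj3
  have hj5' : jacobiSym d0 5 = -1 := by
    rcases h0 with ⟨rfl, _⟩ | ⟨rfl, _⟩
    · exact hj5
    · rw [jac_swap Nat.prime_five hd.1 hR.2.2]; exact hj5
  have hnn : nn D d l = d0 * l := by
    rcases h0 with ⟨rfl, h⟩ | ⟨rfl, h⟩ <;> exact h
  have hW' : W 15 D d l (m / 4) = W (3 * 5) D d l (m / 4) := by norm_num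
  rw [hW', hW, prod_lev2 Nat.prime_three Nat.prime_five h3m h5m (by omega) (by norm_num)
    (by norm_num) (by norm_num), Lv_ram hM0 hsq hl h4 Nat.prime_three (by norm_num)
    (nd_of_jac Nat.prime_three (by rw [hj3']; norm_num))
    (by rw [js_neg, hj3', jm3' h3]; norm_num), Lv_lev hM0 hsq hl h4 Nat.prime_five (by norm_num)
    (nd_of_jac Nat.prime_five (by rw [hj5']; norm_num))
    (by rw [js_neg, hj5', jm5 h5]; norm_num), hnn, ← h4m]
  unfold lcr
  split_ifs <;> ring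

end Pool.Agent.N816.RQ
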