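import Pool.Agent.N816.RQ.Plus2

/-!
# Project RQ: `S_C2Jp21`, `S_C2Jp21n`, `S_C2Jp15`, `S_C2Jp15n`, `S_C2Jpp` (helper816)
-/

set_option autoImplicit false

namespace Pool.Agent.N816.RQ

open Finset
open Pool.Agent.Z700 (hh fac)
open Pool.Agent.N969.P15 (c2 tw un)
open Pool.Agent.N969.P17G (gen)
open Pool.Agent.N969.RQ
open Pool.Agent.N975.PG (jac_zero jac_sq jac_congr jac_prod)
open Pool.Agent.N975.RQ (fd_sq fd_pos un_symm ps_sw)
open Pool.Agent.N218.RQ (odd_part)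

/-- the factor at a level prime `q` dividing `D` is one -/
theorem Lv_one2 {D d l q M : ℕ} {x t : ℤ} (hD : Fd D) (hd : d ∣ D) (hds : Squarefree d)
    (hl : l.Prime) (h4 : d * l % 4 = 3) (hq : q.Prime) (hq2 : q ≠ 2) (hqD : q ∣ D)
    (hql : jacobiSym (-(l : ℤ)) q = 1)
    (hjd : jacobiSym d q = 1 ∨ jacobiSym (D / d : ℕ) q = 1) (hM0 : M ≠ 0)
    (hm : ((4 * M : ℕ) : ℤ) = D * x ^ 2 - t ^ 2) (hqx : ¬ (q : ℤ) ∣ x) (hqM : q ∣ M) :
    Lv d l M q = 1 := by
  have hqp : Prime (q : ℤ) := Nat.prime_iff_prime_int.1 hq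
  have hql' : ¬ q ∣ l := fun h => by
    rw [jac_zero hq (by obtain ⟨c, hc⟩ := h; exact ⟨-(c : ℤ), by rw [hc]; push_cast; ring⟩)] at hql
    norm_num at hql
  obtain ⟨D', hD'⟩ := hqD
  have hqD' : ¬ q ∣ D' := fun h => by
    apply fd_sq hD hq hq2
    rw [hD']
    exact mul_dvd_mul_left q h
  have hqm : q ∣ 4 * M := hqM.mul_left 4
  have hqt : (q : ℤ) ∣ t := by
    apply hqp.dvd_of_dvd_pow (n := 2)
    have e : t ^ 2 = D * x ^ 2 - ((4 * M : ℕ) : ℤ) := by rw [hm]; ring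
    rw [e, hD']
    refine Dvd.dvd.sub ?_ (Int.natCast_dvd_natCast.2 hqm)
    push_cast
    exact ⟨(D' : ℤ) * x ^ 2, by ring⟩
  obtain ⟨t', ht'⟩ := hqt
  obtain ⟨m', hm'⟩ := hqm
  have hq0 : (q : ℤ) ≠ 0 := hqp.ne_zero
  have e1 : (m' : ℤ) = D' * x ^ 2 - q * t' ^ 2 := by
    have : (q : ℤ) * m' = q * (D' * x ^ 2 - q * t' ^ 2) := by
      have h1 : ((q * m' : ℕ) : ℤ) = ((4 * M : ℕ) : ℤ) := by rw [← hm']
      push_cast at h1 hm
      rw [h1, hm, hD', ht']
      push_cast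
      ring
    exact mul_left_cancel₀ hq0 this
  have hqm' : ¬ q ∣ m' := by
    intro h
    have h1 : (q : ℤ) ∣ D' * x ^ 2 := by
      have e2 : (D' : ℤ) * x ^ 2 = m' + q * t' ^ 2 := by rw [e1]; ring
      rw [e2]
      exact (Int.natCast_dvd_natCast.2 h).add (dvd_mul_right _ _)
    rcases hqp.dvd_mul.1 h1 with h2 | h2
    · exact hqD' (Int.natCast_dvd_natCast.1 h2)
    · exact hqx (hqp.dvd_of_dvd_pow h2)
  have hm'0 : m' ≠ 0 := by rintro rfl; exact hqm' (dvd_zero q)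
  have hfm : (4 * M).factorization q = 1 := by
    rw [hm', Nat.factorization_mul hq.ne_zero hm'0, Finsupp.add_apply, hq.factorization_self,
      Nat.factorization_eq_zero_of_not_dvd hqm']
  have hfM : M.factorization q = 1 := by
    rw [← fac_split hM0 hq hq2, hfm]
  by_cases hqd : q ∣ d
  · rw [Lv_div hM0 hds h4 hq hq2 hqd hql' hfM]
    unfold hh
    rw [hfm, if_neg (by decide), pow_one]
    obtain ⟨d', hd'⟩ := hqd
    have e2 : 4 * M / q = m' := Nat.div_eq_of_eq_mul_right hq.pos hm'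
    have e3 : d * l / q = d' * l := by
      rw [hd', mul_assoc]; exact Nat.mul_div_cancel_left _ hq.pos
    rw [e2, e3]
    obtain ⟨e, he⟩ := hd
    have hd0 : 0 < d := Nat.pos_of_ne_zero hds.ne_zero
    have e4 : D / d = e := by rw [he]; exact Nat.mul_div_cancel_left _ hd0
    have e5 : D' = d' * e := by
      have h1 : q * D' = q * (d' * e) := by rw [← hD', he, hd']; ring
      exact Nat.eq_of_mul_eq_mul_left hq.pos h1
    have hje : jacobiSym (e : ℤ) q = 1 := by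
      rcases hjd with h | h
      · exfalso
        rw [jac_zero hq (Int.natCast_dvd_natCast.2 ⟨d', hd'⟩)] at h
        norm_num at h
      · rwa [e4] at h
    have hqd' : ¬ q ∣ d' := fun h => hqD' (by rw [e5]; exact h.mul_right e)
    have e6 : jacobiSym (-((d' * l * m' : ℕ) : ℤ)) q =
        jacobiSym ((d' : ℤ) ^ 2 * x ^ 2 * e * (-(l : ℤ))) q := by
      apply jac_congr
      have : (-((d' * l * m' : ℕ) : ℤ)) - (d' : ℤ) ^ 2 * x ^ 2 * e * (-(l : ℤ)) =
          q * (d' * l * t' ^ 2) := by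
        push_cast
        rw [e1, e5]
        push_cast
        ring
      rw [this]
      exact dvd_mul_right _ _
    rw [e6, jacobiSym.mul_left, jacobiSym.mul_left, jacobiSym.mul_left, jacobiSym.pow_left,
      jacobiSym.pow_left, jac_sq hq (nd_int hqd'), jac_sq hq hqx, hje, hql]
    norm_num
  · have hjd' : jacobiSym d q = 1 := by
      rcases hjd with h | h
      · exact h
      · exfalso
        obtain ⟨e, he⟩ := hd
        have hd0 : 0 < d := Nat.pos_of_ne_zero hds.ne_zero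
        have e4 : D / d = e := by rw [he]; exact Nat.mul_div_cancel_left _ hd0
        have h1 : q ∣ d * e := by rw [← he, hD']; exact dvd_mul_right _ _
        have h2 : q ∣ e := (hq.dvd_mul.1 h1).resolve_left hqd
        rw [e4, jac_zero hq (Int.natCast_dvd_natCast.2 h2)] at h
        norm_num at h
    rw [Lv_lev hM0 hds hl h4 hq hq2 hqd (by rw [js_neg, hjd', hql, one_mul]), hfm]
    norm_num

theorem pw_ps {D d a M : ℕ} (t : ℤ) : pw D d a M = ps D d ((a : ℤ), t, -((M / a : ℕ) : ℤ)) := by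
  unfold pw ps
  congr 1
  · by_cases h : 2 ∣ d
    · rw [if_pos h, if_pos h]
      have : (2 ∣ a) ↔ ((2 : ℤ) ∣ (a : ℤ)) := by norm_cast
      simp only [this]
    · rw [if_neg h, if_neg h]
  · refine Finset.prod_congr rfl fun p _ => ?_
    unfold gen
    have : (p ∣ a) ↔ ((p : ℤ) ∣ (a : ℤ)) := Int.natCast_dvd_natCast.symm
    simp only [this]

/-- the common part, all auxiliary primes -/
theorem Wp_main {N D d l : ℕ} (hN : Squarefree N) (hN2 : ¬ 2 ∣ N) (hlN : ¬ l ∣ N) (hD : Fd D)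
    (hd : Un D d) (hs : sgd D d = 1) (hl : l.Prime) (hl4 : l % 4 = 3) (hlD : ¬ l ∣ D) {t : ℤ}
    {m : ℕ} (hm0 : 0 < m) (hm : (m : ℤ) = D * l ^ 2 - t ^ 2)
    (ht : ¬ (l : ℤ) ∣ t ∨ jacobiSym D l = 1) (hNm : 4 * N ∣ m) :
    ∃ d0, ((d0 = d ∧ nn D d l = d * l) ∨ (d0 = D / d ∧ nn D d l = D / d * l)) ∧ Squarefree d0 ∧
      d0 * l % 4 = 3 ∧ ∃ (M : ℕ) (x t1 : ℤ), M ≠ 0 ∧ ((4 * M : ℕ) : ℤ) = D * x ^ 2 - t1 ^ 2 ∧
      (∀ q : ℕ, q.Prime → q ≠ l → ¬ (q : ℤ) ∣ x) ∧ N ∣ M ∧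
      (∀ q : ℕ, q.Prime → q ≠ l → (4 * M).factorization q = m.factorization q) ∧
      Wp N D d l t m = sj D d l t * (tw (d0 * l) m *
        ∏ q ∈ m.primeFactors.erase 2, if q ∣ N then Lv d0 l M q else fac (d0 * l) m q) := by
  have hl2 : l ≠ 2 := by rintro rfl; omega
  have hlp := Nat.prime_iff_prime_int.1 hl
  have hl0 : (l : ℤ) ≠ 0 := hlp.ne_zero
  obtain ⟨k1, k2⟩ := odd_part hD hd hs
  have k3 : ∀ x, x % 4 = 1 → x * l % 4 = 3 := fun x hx => by rw [Nat.mul_mod, hx, hl4]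
  by_cases hlt : (l : ℤ) ∣ t
  · have hj : jacobiSym D l = 1 := ht.resolve_left (not_not.2 hlt)
    obtain ⟨t', rfl⟩ := hlt
    -- `m = 4 l² M`
    have hdm : l ^ 2 ∣ m := by
      have : ((l ^ 2 : ℕ) : ℤ) ∣ m := ⟨D - t' ^ 2, by rw [hm]; push_cast; ring⟩
      exact_mod_cast this
    obtain ⟨m1, hm1⟩ := hdm
    have hc4 : Nat.Coprime (4 * N) (l ^ 2) := by
      apply Nat.Coprime.pow_right
      have h1 : Nat.Coprime l (4 * N) := by
        rw [Nat.Prime.coprime_iff_not_dvd hl]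
        intro h
        rcases hl.dvd_mul.1 h with h2 | h2
        · exact nd4 hl hl2 (by exact_mod_cast h2)
        · exact hlN h2
      exact h1.symm
    obtain ⟨M', hM'⟩ : 4 * N ∣ m1 := by
      rw [hm1] at hNm
      exact hc4.dvd_of_dvd_mul_left hNm
    set M := N * M' with hMdef
    have hm2 : m = 4 * (l ^ 2 * M) := by rw [hm1, hM', hMdef]; ring
    have hM0 : M ≠ 0 := by rintro h; rw [h] at hm2; omega
    have hdisc : t' ^ 2 + 4 * (M : ℤ) = D := by
      have h1 : ((l : ℤ) ^ 2) * (t' ^ 2 + 4 * M) = (l : ℤ) ^ 2 * D := by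
        have h2 : (m : ℤ) = 4 * (l ^ 2 * M) := by rw [hm2]; push_cast; ring
        rw [hm] at h2
        linear_combination -h2
      exact mul_left_cancel₀ (pow_ne_zero 2 hl0) h1
    have hjd := jac_swap hl hd.1 hj
    have key : ∀ d0, (d0 = d ∨ d0 = D / d) → Squarefree d0 → d0 * l % 4 = 3 →
        Wp N D d l (l * t') m = sj D d l (l * t') * (tw (d0 * l) m *
          ∏ q ∈ m.primeFactors.erase 2, if q ∣ N then Lv d0 l M q else fac (d0 * l) m q) := by
      intro d0 h0 hsq h4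
      have hd0D : d0 ∣ D := by
        rcases h0 with rfl | rfl
        · exact hd.1
        · exact Nat.div_dvd_of_dvd hd.1
      have hj0 : jacobiSym d l = jacobiSym d0 l := by
        rcases h0 with rfl | rfl
        · rfl
        · exact hjd.symm
      have hld0 : ¬ l ∣ d0 := fun h => hlD (h.trans hd0D)
      have hdiv : m / (4 * l ^ 2) = M := by
        rw [hm2, show 4 * (l ^ 2 * M) = 4 * l ^ 2 * M by ring]
        exact Nat.mul_div_cancel_left _ (Nat.mul_pos (by norm_num) (pow_pos hl.pos 2))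
      have htl : (l * t') / (l : ℤ) = t' := Int.mul_ediv_cancel_left _ hl0
      unfold Wp
      rw [if_pos (dvd_mul_right _ _), hdiv, htl]
      have hpw : ∀ a ∈ M.divisors.filter (N ∣ ·), pw D d a M * rho l a (M / a) t' =
          pw D d0 a M * rho l a (M / a) t' := by
        intro a ha
        congr 1
        rcases h0 with rfl | rfl
        · rfl
        · rw [pw_ps t', pw_ps t']
          symm
          refine ps_sw hD hd ?_
          obtain ⟨b, hb⟩ := Nat.dvd_of_mem_divisors (Finset.mem_of_mem_filter a ha)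
          have ha0 : 0 < a := Nat.pos_of_ne_zero (by rintro rfl; rw [zero_mul] at hb; exact hM0 hb)
          have e1 : M / a = b := Nat.div_eq_of_eq_mul_right ha0 hb
          show t' ^ 2 - 4 * (a : ℤ) * (-((M / a : ℕ) : ℤ)) = D
          have e2 : (M : ℤ) = a * b := by exact_mod_cast hb
          rw [e1, ← hdisc, e2]
          ring
      rw [Finset.sum_congr rfl hpw, hj0,
        sum_rho hsq h4 hl hl2 hld0 hj hlN hM0 hdisc hd.1 hj0, ← hm2,
        W_odd2 hN hN2 hlN (hMdef ▸ dvd_mul_right N M') hM0 hsq hl hld0 h4]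
      have hlm : l ∈ m.primeFactors.erase 2 := Finset.mem_erase.2 ⟨hl2, Nat.mem_primeFactors.2
        ⟨hl, by rw [hm2]; exact ((dvd_pow_self l two_ne_zero).mul_right M).mul_left 4, by omega⟩⟩
      rw [← Finset.mul_prod_erase _ _ hlm, if_neg hlN]
      have hfl : fac (d0 * l) m l = 1 + hh (d0 * l) m l := by
        unfold fac
        rw [if_pos (dvd_mul_left l d0)]
      have e3 : ∏ q ∈ (m.primeFactors.erase 2).erase l,
          (if q ∣ N then Lv d0 l M q else fac (d0 * l) m q) =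
          ∏ q ∈ ((4 * M).primeFactors.erase 2).erase l,
          (if q ∣ N then Lv d0 l M q else fac (d0 * l) (4 * M) q) := by
        rw [hm2, pf_scale hl hM0]
        refine Finset.prod_congr rfl fun q hq => ?_
        obtain ⟨hql, hq'⟩ := Finset.mem_erase.1 hq
        rw [fac_scale hl hM0 (Nat.prime_of_mem_primeFactors (Finset.mem_of_mem_erase hq')) hql]
      have e4 : tw (d0 * l) m = tw (d0 * l) (4 * M) := by rw [hm2, tw_scale hl hM0 hl2]
      rw [hfl, e3, e4]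
      ring
    have hx : ∀ q : ℕ, q.Prime → q ≠ l → ¬ (q : ℤ) ∣ 1 := fun q hq _ h =>
      (Nat.prime_iff_prime_int.1 hq).not_isUnit (isUnit_of_dvd_one h)
    have hv : ∀ q : ℕ, q.Prime → q ≠ l → (4 * M).factorization q = m.factorization q :=
      fun q hq hql => by rw [hm2, v_scale hl hM0 hq hql]
    have hdm' : ((4 * M : ℕ) : ℤ) = D * 1 ^ 2 - t' ^ 2 := by rw [← hdisc]; push_cast; ring
    by_cases h2 : 2 ∣ d
    · rw [if_pos h2] at k1 k2
      exact ⟨D / d, Or.inr ⟨rfl, if_pos h2⟩, k1, k3 _ k2, M, 1, t', hM0, hdm', hx,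
        hMdef ▸ dvd_mul_right N M', hv, key _ (Or.inr rfl) k1 (k3 _ k2)⟩
    · rw [if_neg h2] at k1 k2
      exact ⟨d, Or.inl ⟨rfl, if_neg h2⟩, k1, k3 _ k2, M, 1, t', hM0, hdm', hx,
        hMdef ▸ dvd_mul_right N M', hv, key _ (Or.inl rfl) k1 (k3 _ k2)⟩
  · have h4 : 4 * (m / 4) = m := Nat.mul_div_cancel' ((dvd_mul_right 4 N).trans hNm)
    have hM0 : m / 4 ≠ 0 := by omega
    have hNM : N ∣ m / 4 := by
      rw [← h4] at hNm
      exact Nat.dvd_of_mul_dvd_mul_left (by norm_num) hNm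
    have hM : t ^ 2 + 4 * ((m / 4 : ℕ) : ℤ) = D * l ^ 2 := by
      have : ((4 * (m / 4) : ℕ) : ℤ) = m := by rw [h4]
      rw [hm] at this
      push_cast at this ⊢
      linarith
    have hlM := lM hl hM hlt
    have hWp : Wp N D d l t m = sj D d l t * W N D d l (m / 4) := by
      unfold Wp sj
      rw [if_neg hlt, if_neg hlt]
    have hx : ∀ q : ℕ, q.Prime → q ≠ l → ¬ (q : ℤ) ∣ (l : ℤ) := fun q hq hql h =>
      hql ((Nat.prime_dvd_prime_iff_eq hq hl).1 (Int.natCast_dvd_natCast.1 h))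
    have hv : ∀ q : ℕ, q.Prime → q ≠ l → (4 * (m / 4)).factorization q = m.factorization q :=
      fun q _ _ => by rw [h4]
    have hdm' : ((4 * (m / 4) : ℕ) : ℤ) = D * (l : ℤ) ^ 2 - t ^ 2 := by rw [h4, hm]
    by_cases h2 : 2 ∣ d
    · rw [if_pos h2] at k1 k2
      refine ⟨D / d, Or.inr ⟨rfl, if_pos h2⟩, k1, k3 _ k2, m / 4, l, t, hM0, hdm', hx, hNM, hv, ?_⟩
      rw [hWp, ← W_sw hD hd hl hl2 hlD hM hlt, W_odd hN hN2 hNM hM0 k1 hl (k3 _ k2) hlM, h4]
    · rw [if_neg h2] at k1 k2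
      refine ⟨d, Or.inl ⟨rfl, if_neg h2⟩, k1, k3 _ k2, m / 4, l, t, hM0, hdm', hx, hNM, hv, ?_⟩
      rw [hWp, W_odd hN hN2 hNM hM0 k1 hl (k3 _ k2) hlM, h4]

/-! ### the levels `3`, `5`, `7` -/

theorem t_C2Jpp : S_C2Jpp := by
  intro p hp D d l hD hjD hd hs hl hl4 hlp hlD hr t m hm0 hm ht h4p
  have hpp : p.Prime := by rcases hp with rfl | rfl | rfl <;> norm_num
  have hp2 : p ≠ 2 := by rcases hp with rfl | rfl | rfl <;> norm_num
  obtain ⟨d0, h0, hsq, h4, M, x, t1, hM0, hMx, hx, hNM, hv, hW⟩ := Wp_main hpp.squarefree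
    (fun h => hp2 ((Nat.prime_dvd_prime_iff_eq Nat.prime_two hpp).1 h).symm)
    (fun h => hlp ((Nat.prime_dvd_prime_iff_eq hl hpp).1 h)) hD hd hs hl hl4 hlD hm0
    hm ht h4p
  have hpm : p ∣ m := (dvd_mul_left p 4).trans h4p
  rw [hW, prod_lev1 hpp hpm (by omega) hp2]
  have hjd : jacobiSym d0 p = jacobiSym d p := by
    rcases h0 with ⟨rfl, _⟩ | ⟨rfl, _⟩
    · rfl
    · exact jac_swap hpp hd.1 hjD
  have hr' : jacobiSym (-((d0 * l : ℕ) : ℤ)) p = -1 := by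
    rw [js_neg, hjd, ← js_neg]; exact hr
  have hnd : ¬ p ∣ d0 := by
    intro h
    rw [js_neg, jac_zero hpp (Int.natCast_dvd_natCast.2 h), zero_mul] at hr'
    norm_num at hr'
  have hnn : nn D d l = d0 * l := by
    rcases h0 with ⟨rfl, h⟩ | ⟨rfl, h⟩ <;> exact h
  rw [Lv_ram hM0 hsq hl h4 hpp hp2 hnd hr', hnn, hv p hpp (Ne.symm hlp)]
  unfold lcp
  split_ifs <;> ring

/-! ### two primes -/

/-- the common part for a ramified prime `r` and a level prime `s` -/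
theorem C2_two {D d l r s : ℕ} (hr : r.Prime) (hs : s.Prime) (hr2 : r ≠ 2) (hs2 : s ≠ 2)
    (hne : s ≠ r) (hlr : l ≠ r) (hls : l ≠ s) (hD : Fd D) (hd : Un D d) (hsg : sgd D d = 1)
    (hl : l.Prime) (hl4 : l % 4 = 3) (hlD : ¬ l ∣ D) (hDr : jacobiSym D r = 1)
    (hdr : jacobiSym (-((d * l : ℕ) : ℤ)) r = -1)
    (hds : (s ∣ D ∧ jacobiSym (-(l : ℤ)) s = 1 ∧
      (jacobiSym d s = 1 ∨ jacobiSym (D / d : ℕ) s = 1)) ∨
      (jacobiSym D s = 1 ∧ jacobiSym (-((d * l : ℕ) : ℤ)) s = 1))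
    {t : ℤ} {m : ℕ} (hm0 : 0 < m) (hm : (m : ℤ) = D * l ^ 2 - t ^ 2)
    (ht : ¬ (l : ℤ) ∣ t ∨ jacobiSym D l = 1) (hNm : 4 * (r * s) ∣ m) :
    Wp (r * s) D d l t m = - (sj D d l t * ((if s ∣ D then 1 else (m.factorization s : ℤ)) *
      lcr (nn D d l) m r s)) := by
  have hrs : Nat.Coprime r s := (Nat.coprime_primes hr hs).2 (Ne.symm hne)
  have h2p : ∀ p : ℕ, p.Prime → 2 ∣ p → p = 2 := fun p hp h =>
    ((Nat.prime_dvd_prime_iff_eq Nat.prime_two hp).1 h).symm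
  obtain ⟨d0, h0, hsq, h4, M, x, t1, hM0, hMx, hx, hNM, hv, hW⟩ := Wp_main (N := r * s)
    ((Nat.squarefree_mul hrs).2 ⟨hr.squarefree, hs.squarefree⟩)
    (fun h => (Nat.prime_two.dvd_mul.1 h).elim (fun h => hr2 (h2p r hr h))
      fun h => hs2 (h2p s hs h))
    (fun h => (hl.dvd_mul.1 h).elim (fun h => hlr ((Nat.prime_dvd_prime_iff_eq hl hr).1 h))
      fun h => hls ((Nat.prime_dvd_prime_iff_eq hl hs).1 h)) hD hd hsg hl hl4 hlD hm0
    hm ht hNm
  have hrm : r ∣ m := ((dvd_mul_right r s).mul_left 4).trans hNm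
  have hsm : s ∣ m := ((dvd_mul_left s r).mul_left 4).trans hNm
  have hd0 : d0 ∣ D := by
    rcases h0 with ⟨rfl, _⟩ | ⟨rfl, _⟩
    · exact hd.1
    · exact Nat.div_dvd_of_dvd hd.1
  have hnn : nn D d l = d0 * l := by
    rcases h0 with ⟨rfl, h⟩ | ⟨rfl, h⟩ <;> exact h
  have hsw : ∀ p : ℕ, p.Prime → jacobiSym D p = 1 → jacobiSym (-((d0 * l : ℕ) : ℤ)) p =
      jacobiSym (-((d * l : ℕ) : ℤ)) p := by
    intro p hp hj
    rw [js_neg, js_neg]
    congr 1
    rcases h0 with ⟨rfl, _⟩ | ⟨rfl, _⟩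
    · rfl
    · exact jac_swap hp hd.1 hj
  have hnd : ∀ p : ℕ, p.Prime → jacobiSym D p = 1 → ¬ p ∣ d0 := by
    intro p hp hj h
    rw [jac_zero hp (Int.natCast_dvd_natCast.2 (h.trans hd0))] at hj
    norm_num at hj
  have hL : Lv d0 l M s = if s ∣ D then 1 else (m.factorization s : ℤ) := by
    rcases hds with ⟨h1, h2, h3⟩ | ⟨h1, h2⟩
    · rw [if_pos h1]
      refine Lv_one2 hD hd0 hsq hl h4 hs hs2 h1 h2 ?_ hM0 hMx (hx s hs (Ne.symm hls))
        ((dvd_mul_left s r).trans hNM)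
      rcases h0 with ⟨rfl, _⟩ | ⟨rfl, _⟩
      · exact h3
      · rw [Nat.div_div_self hd.1 (fd_pos hD).ne']; exact h3.symm
    · have h3 : ¬ s ∣ D := fun h => by
        rw [jac_zero hs (Int.natCast_dvd_natCast.2 h)] at h1
        norm_num at h1
      rw [if_neg h3, Lv_lev hM0 hsq hl h4 hs hs2 (hnd s hs h1) (by rw [hsw s hs h1, h2]),
        hv s hs (Ne.symm hls)]
  rw [hW, prod_lev2 hr hs hrm hsm (by omega) hr2 hs2 hne, hL,
    Lv_ram hM0 hsq hl h4 hr hr2 (hnd r hr hDr) (by rw [hsw r hr hDr, hdr]), hnn,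
    hv r hr (Ne.symm hlr)]
  unfold lcr
  split_ifs <;> ring

theorem cls21 {l : ℕ} (hC : N877.P21.Cls0 l) : l ≠ 3 ∧ l ≠ 7 := by
  have h3 := hC.2.2.1
  have h7 := hC.2.2.2
  unfold N877.P21.Sp7 at h7
  omega

theorem cls15 {l : ℕ} (hC : N969.P15.Cls0 l) : l ≠ 3 ∧ l ≠ 5 ∧ l % 4 = 3 ∧ l % 3 = 2 ∧
    (l % 5 = 2 ∨ l % 5 = 3) := by
  have h := hC.2
  omega

theorem t_C2Jp21 : S_C2Jp21 := by
  intro D d l hR hd hs hl hC hlD t m hm0 hm ht h84 hj3 hj7
  have hD := r21_fd hR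
  have hD3 : D % 3 = 1 := by rcases hR with h | h <;> exact h.2.1
  obtain ⟨l3, l7⟩ := cls21 hC
  have h := C2_two (r := 3) (s := 7) (by norm_num) (by norm_num) (by norm_num) (by norm_num)
    (by norm_num) l3 l7 hD hd hs hl hC.2.1 hlD (jp3 hD3)
    (by rw [js_neg, hj3, jm3 hC.2.2.1]; norm_num) (by
      rcases hR with h | h
      · right
        refine ⟨h.2.2, ?_⟩
        have hj : jacobiSym d 7 = 1 := by
          rcases hj7 with h1 | h1
          · exact h1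
          · rw [← jac_swap (by norm_num) hd.1 h.2.2]; exact h1
        rw [js_neg, hj, jm7 hC.2.2.2]; norm_num
      · exact Or.inl ⟨h.2.2, jm7 hC.2.2.2, hj7⟩) hm0 hm ht (by simpa using h84)
  exact h

theorem t_C2Jp21n : S_C2Jp21n := by
  intro D d l hR hd hs hl hC hlD t m hm0 hm ht h84 hj3 hj7
  have hD := hR.1
  have hD3 : D % 3 = 1 := hR.2.1
  obtain ⟨l3, l7⟩ := cls21 hC
  have h3D : ¬ 3 ∣ D := by omega
  have h := C2_two (r := 7) (s := 3) (by norm_num) (by norm_num) (by norm_num) (by norm_num)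
    (by norm_num) l7 l3 hD hd hs hl hC.2.1 hlD hR.2.2
    (by rw [js_neg, hj7, jm7 hC.2.2.2]; norm_num)
    (Or.inr ⟨jp3 hD3, by rw [js_neg, hj3, jm3 hC.2.2.1]; norm_num⟩) hm0 hm ht (by simpa using h84)
  rw [if_neg h3D] at h
  exact h

theorem t_C2Jp15 : S_C2Jp15 := by
  intro D d l hR hd hs hl hC hlD t m hm0 hm ht h60 hj5 hj3
  have hD : Fd D := by rcases hR with h | h <;> exact h.1
  have hD5 : jacobiSym D 5 = 1 := by rcases hR with h | h <;> exact h.2.2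
  obtain ⟨l3, l5, hl4, h3, h5⟩ := cls15 hC
  have h := C2_two (r := 5) (s := 3) (by norm_num) (by norm_num) (by norm_num) (by norm_num)
    (by norm_num) l5 l3 hD hd hs hl hl4 hlD hD5
    (by rw [js_neg, hj5, jm5 h5]; norm_num) (by
      rcases hR with h | h
      · right
        refine ⟨jp3 h.2.1, ?_⟩
        have hj : jacobiSym d 3 = 1 := by
          rcases hj3 with h1 | h1
          · exact h1
          · rw [← jac_swap (by norm_num) hd.1 (jp3 h.2.1)]; exact h1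
        rw [js_neg, hj, jm3' h3]; norm_num
      · exact Or.inl ⟨h.2.1, jm3' h3, hj3⟩) hm0 hm ht (by simpa using h60)
  exact h

theorem t_C2Jp15n : S_C2Jp15n := by
  intro D d l hR hd hs hl hC hlD t m hm0 hm ht h60 hj3 hj5
  have hD := hR.1
  have hD3 : D % 3 = 1 := hR.2.1
  obtain ⟨l3, l5, hl4, h3, h5⟩ := cls15 hC
  have h5D : ¬ 5 ∣ D := fun h1 => by
    have := hR.2.2
    rw [jac_zero Nat.prime_five (Int.natCast_dvd_natCast.2 h1)] at this
    norm_num at this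
  have h := C2_two (r := 3) (s := 5) (by norm_num) (by norm_num) (by norm_num) (by norm_num)
    (by norm_num) l3 l5 hD hd hs hl hl4 hlD (jp3 hD3)
    (by rw [js_neg, hj3, jm3' h3]; norm_num)
    (Or.inr ⟨hR.2.2, by rw [js_neg, hj5, jm5 h5]; norm_num⟩) hm0 hm ht (by simpa using h60)
  rw [if_neg h5D] at h
  exact h

end Pool.Agent.N816.RQ
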