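import Mathlib

/-!
# Sums over divisors of a multiplicative function (helper816)
-/

set_option autoImplicit false

namespace Pool.Agent.N816.RQ

open Finset

theorem sum_div_mul {m n : ℕ} (h : m.Coprime n) (f : ℕ → ℤ) :
    ∑ a ∈ (m * n).divisors, f a = ∑ a ∈ m.divisors, ∑ b ∈ n.divisors, f (a * b) := by
  rw [← Finset.sum_product', Nat.divisors_mul, Finset.mul_def,
    Finset.sum_image (by
      have := h.mul_injOn_divisors
      simpa using this)]

/-- the sum over the divisors which are divisible by the primes of `C` -/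
theorem sum_mult (C : ℕ → Prop) [DecidablePred C] : ∀ M : ℕ, M ≠ 0 → ∀ f : ℕ → ℤ, f 1 = 1 →
    (∀ a b, a.Coprime b → a * b ∣ M → f (a * b) = f a * f b) →
    ∑ a ∈ M.divisors.filter (fun a => ∀ q ∈ M.primeFactors, C q → q ∣ a), f a =
      ∏ q ∈ M.primeFactors, ∑ i ∈ (range (M.factorization q + 1)).filter (fun i => C q → i ≠ 0),
        f (q ^ i) := by
  intro M
  induction M using Nat.recOnPosPrimePosCoprime with
  | prime_pow p n hp hn =>
    intro _ f h1 hf
    rw [Nat.primeFactors_prime_pow hn.ne' hp, Finset.prod_singleton, Finset.sum_filter,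
      Finset.sum_filter, Nat.sum_divisors_prime_pow hp]
    have e : (p ^ n).factorization p = n := by
      rw [Nat.Prime.factorization_pow hp, Finsupp.single_eq_same]
    rw [e]
    refine Finset.sum_congr rfl fun i _ => ?_
    have h3 : (∀ q ∈ ({p} : Finset ℕ), C q → q ∣ p ^ i) ↔ (C p → i ≠ 0) := by
      simp only [Finset.mem_singleton, forall_eq]
      refine forall_congr' fun _ => ?_
      constructor
      · rintro h rfl
        rw [pow_zero, Nat.dvd_one] at h
        exact hp.one_lt.ne' h
      · exact fun h => dvd_pow_self p h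
    simp only [h3]
  | zero => intro h; exact absurd rfl h
  | one =>
    intro _ f h1 _
    rw [Nat.primeFactors_one, Finset.prod_empty, Nat.divisors_one]
    rw [Finset.filter_true_of_mem (by simp), Finset.sum_singleton, h1]
  | coprime a b ha hb hab iha ihb =>
    intro hM f h1 hf
    have ha0 : a ≠ 0 := by omega
    have hb0 : b ≠ 0 := by omega
    rw [Nat.primeFactors_mul ha0 hb0, Finset.prod_union hab.disjoint_primeFactors]
    have ea : ∏ q ∈ a.primeFactors, ∑ i ∈ (range ((a * b).factorization q + 1)).filter
        (fun i => C q → i ≠ 0), f (q ^ i) =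
        ∏ q ∈ a.primeFactors, ∑ i ∈ (range (a.factorization q + 1)).filter
        (fun i => C q → i ≠ 0), f (q ^ i) := by
      refine Finset.prod_congr rfl fun q hq => ?_
      have : (a * b).factorization q = a.factorization q := by
        rw [Nat.factorization_mul ha0 hb0, Finsupp.add_apply,
          Nat.factorization_eq_zero_of_not_dvd (n := b), add_zero]
        intro h
        have h2 := Nat.dvd_gcd (Nat.dvd_of_mem_primeFactors hq) h
        rw [hab] at h2
        exact (Nat.prime_of_mem_primeFactors hq).one_lt.ne' (Nat.dvd_one.1 h2)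
      rw [this]
    have eb : ∏ q ∈ b.primeFactors, ∑ i ∈ (range ((a * b).factorization q + 1)).filter
        (fun i => C q → i ≠ 0), f (q ^ i) =
        ∏ q ∈ b.primeFactors, ∑ i ∈ (range (b.factorization q + 1)).filter
        (fun i => C q → i ≠ 0), f (q ^ i) := by
      refine Finset.prod_congr rfl fun q hq => ?_
      have : (a * b).factorization q = b.factorization q := by
        rw [Nat.factorization_mul ha0 hb0, Finsupp.add_apply,
          Nat.factorization_eq_zero_of_not_dvd (n := a), zero_add]
        intro h
        have h2 := Nat.dvd_gcd h (Nat.dvd_of_mem_primeFactors hq)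
        rw [hab] at h2
        exact (Nat.prime_of_mem_primeFactors hq).one_lt.ne' (Nat.dvd_one.1 h2)
      rw [this]
    rw [ea, eb, ← iha ha0 f h1 fun x y h2 h3 => hf x y h2 (h3.mul_right b),
      ← ihb hb0 f h1 fun x y h2 h3 => hf x y h2 (h3.mul_left a), Finset.sum_filter,
      Finset.sum_filter, Finset.sum_filter, sum_div_mul hab, Finset.sum_mul_sum]
    refine Finset.sum_congr rfl fun x hx => Finset.sum_congr rfl fun y hy => ?_
    have hx' := Nat.dvd_of_mem_divisors hx
    have hy' := Nat.dvd_of_mem_divisors hy
    have hxy : x.Coprime y := Nat.Coprime.of_dvd hx' hy' hab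
    have key : (∀ q ∈ a.primeFactors ∪ b.primeFactors, C q → q ∣ x * y) ↔
        ((∀ q ∈ a.primeFactors, C q → q ∣ x) ∧ ∀ q ∈ b.primeFactors, C q → q ∣ y) := by
      constructor
      · intro h
        constructor
        · intro q hq hC
          have h2 := h q (Finset.mem_union_left _ hq) hC
          rcases (Nat.prime_of_mem_primeFactors hq).dvd_mul.1 h2 with h3 | h3
          · exact h3
          · exfalso
            have h4 := Nat.dvd_gcd (Nat.dvd_of_mem_primeFactors hq) (h3.trans hy')
            rw [hab] at h4
            exact (Nat.prime_of_mem_primeFactors hq).one_lt.ne' (Nat.dvd_one.1 h4)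
        · intro q hq hC
          have h2 := h q (Finset.mem_union_right _ hq) hC
          rcases (Nat.prime_of_mem_primeFactors hq).dvd_mul.1 h2 with h3 | h3
          · exfalso
            have h4 := Nat.dvd_gcd (h3.trans hx') (Nat.dvd_of_mem_primeFactors hq)
            rw [hab] at h4
            exact (Nat.prime_of_mem_primeFactors hq).one_lt.ne' (Nat.dvd_one.1 h4)
          · exact h3
      · rintro ⟨h2, h3⟩ q hq hC
        rcases Finset.mem_union.1 hq with h4 | h4
        · exact (h2 q h4 hC).mul_right y
        · exact (h3 q h4 hC).mul_left x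
    rw [hf x y hxy (mul_dvd_mul hx' hy')]
    by_cases c1 : ∀ q ∈ a.primeFactors, C q → q ∣ x
    · by_cases c2 : ∀ q ∈ b.primeFactors, C q → q ∣ y
      · rw [if_pos (key.2 ⟨c1, c2⟩), if_pos c1, if_pos c2]
      · rw [if_neg (fun h => c2 (key.1 h).2), if_neg c2, mul_zero]
    · rw [if_neg (fun h => c1 (key.1 h).1), if_neg c1, zero_mul]

/-- the sum over the divisors which are multiples of a squarefree number -/
theorem sum_mult_sq {N M : ℕ} (hN : Squarefree N) (hNM : N ∣ M) (hM : M ≠ 0) (f : ℕ → ℤ)
    (h1 : f 1 = 1) (hf : ∀ a b, a.Coprime b → a * b ∣ M → f (a * b) = f a * f b) :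
    ∑ a ∈ M.divisors.filter (N ∣ ·), f a =
      ∏ q ∈ M.primeFactors, ∑ i ∈ (range (M.factorization q + 1)).filter (fun i => q ∣ N → i ≠ 0),
        f (q ^ i) := by
  rw [← sum_mult (fun q => q ∣ N) M hM f h1 hf]
  refine Finset.sum_congr (Finset.filter_congr fun a _ => ?_) fun _ _ => rfl
  constructor
  · exact fun h q _ hq => hq.trans h
  · intro h
    rw [← Nat.prod_primeFactors_of_squarefree hN]
    refine Finset.prod_primes_dvd (a : ℕ) (fun q hq => (Nat.prime_of_mem_primeFactors hq).prime)
      fun q hq => ?_
    have h2 := Nat.dvd_of_mem_primeFactors hq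
    exact h q (Nat.mem_primeFactors.2 ⟨Nat.prime_of_mem_primeFactors hq, h2.trans hNM, hM⟩) h2

end Pool.Agent.N816.RQ
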