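import Pool.Agent.N816.RQ.Mul
import Pool.Agent.N969.RQ.Defs2
import Pool.Agent.N975.RQ.SW

/-!
# Evaluation of the divisor sums of project RQ, `d` odd (helper816)
-/

set_option autoImplicit false

namespace Pool.Agent.N816.RQ

open Finset
open Pool.Agent.Z700 (hh fac)
open Pool.Agent.N969.P15 (c2 tw)
open Pool.Agent.N969.RQ (W)
open Pool.Agent.N975.PG (jac_zero jac_sq jac_congr jac_prod)

/-- the weight of a divisor, `d` odd -/
def fO (d l M a : ℕ) : ℤ := jacobiSym a l * ∏ p ∈ d.primeFactors,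
  if p ∣ a then jacobiSym (-((M / a : ℕ) : ℤ)) p else jacobiSym a p

theorem W_fO {N D d l M : ℕ} (h2 : ¬ 2 ∣ d) :
    W N D d l M = ∑ a ∈ M.divisors.filter (N ∣ ·), fO d l M a := by
  unfold W fO
  refine Finset.sum_congr rfl fun a _ => ?_
  rw [if_neg h2, one_mul, Finset.erase_eq_of_notMem]
  exact fun h => h2 (Nat.dvd_of_mem_primeFactors h)

theorem nd_int {p a : ℕ} (h : ¬ p ∣ a) : ¬ (p : ℤ) ∣ a := fun h1 => h (Int.natCast_dvd_natCast.1 h1)

theorem jsq {p : ℕ} (hp : p.Prime) {a : ℕ} (h : ¬ p ∣ a) :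
    jacobiSym a p * jacobiSym a p = 1 := by
  rw [← sq]; exact jac_sq hp (nd_int h)

theorem fO_one (d l M : ℕ) : fO d l M 1 = 1 := by
  unfold fO
  rw [Nat.cast_one, jacobiSym.one_left, one_mul]
  refine Finset.prod_eq_one fun p hp => ?_
  rw [if_neg (fun h => (Nat.prime_of_mem_primeFactors hp).one_lt.ne' (Nat.dvd_one.1 h)),
    jacobiSym.one_left]

theorem fO_mul {d l M : ℕ} (hM : M ≠ 0) {a b : ℕ} (hab : a.Coprime b) (h : a * b ∣ M) :
    fO d l M (a * b) = fO d l M a * fO d l M b := by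
  unfold fO
  rw [Nat.cast_mul, jacobiSym.mul_left, mul_mul_mul_comm, ← Finset.prod_mul_distrib]
  congr 1
  refine Finset.prod_congr rfl fun p hp => ?_
  have hp' := Nat.prime_of_mem_primeFactors hp
  obtain ⟨c, hc⟩ := h
  have hab0 : a * b ≠ 0 := fun h0 => hM (by rw [hc, h0, zero_mul])
  have ha0 : 0 < a := Nat.pos_of_ne_zero fun h0 => hab0 (by rw [h0, zero_mul])
  have hb0 : 0 < b := Nat.pos_of_ne_zero fun h0 => hab0 (by rw [h0, mul_zero])
  have e1 : M / (a * b) = c := by rw [hc]; exact Nat.mul_div_cancel_left _ (Nat.pos_of_ne_zero hab0)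
  have e2 : M / a = b * c := by rw [hc, mul_assoc]; exact Nat.mul_div_cancel_left _ ha0
  have e3 : M / b = a * c := by
    rw [hc, mul_comm a b, mul_assoc]; exact Nat.mul_div_cancel_left _ hb0
  rw [e1, e2, e3]
  by_cases pa : p ∣ a
  · have pb : ¬ p ∣ b := fun h1 => by
      have h2 := Nat.dvd_gcd pa h1
      rw [hab] at h2
      exact hp'.one_lt.ne' (Nat.dvd_one.1 h2)
    rw [if_pos (pa.mul_right b), if_pos pa, if_neg pb]
    have e4 : (-((b * c : ℕ) : ℤ)) = b * (-(c : ℤ)) := by push_cast; ring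
    rw [e4, jacobiSym.mul_left]
    linear_combination (-(jacobiSym (-(c : ℤ)) p)) * jsq hp' pb
  · by_cases pb : p ∣ b
    · rw [if_pos (pb.mul_left a), if_neg pa, if_pos pb]
      have e4 : (-((a * c : ℕ) : ℤ)) = a * (-(c : ℤ)) := by push_cast; ring
      rw [e4, jacobiSym.mul_left]
      linear_combination (-(jacobiSym (-(c : ℤ)) p)) * jsq hp' pa
    · rw [if_neg (fun h1 => (hp'.dvd_mul.1 h1).elim pa pb), if_neg pa, if_neg pb]
      exact jacobiSym.mul_left _ _ _

/-- the value at a power of a prime not dividing `d` -/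
theorem fO_nd {d l M q : ℕ} (hd : Squarefree d) (hl : l ≠ 0) (hq : q.Prime) (hqd : ¬ q ∣ d) (i : ℕ) :
    fO d l M (q ^ i) = jacobiSym q (d * l) ^ i := by
  unfold fO
  have e : ∀ p ∈ d.primeFactors, (if p ∣ q ^ i then jacobiSym (-((M / q ^ i : ℕ) : ℤ)) p
      else jacobiSym ((q ^ i : ℕ) : ℤ) p) = jacobiSym ((q ^ i : ℕ) : ℤ) p := by
    intro p hp
    rw [if_neg]
    intro h
    have h2 := (Nat.prime_dvd_prime_iff_eq (Nat.prime_of_mem_primeFactors hp) hq).1
      ((Nat.prime_of_mem_primeFactors hp).dvd_of_dvd_pow h)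
    exact hqd (h2 ▸ Nat.dvd_of_mem_primeFactors hp)
  rw [Finset.prod_congr rfl e]
  have e2 : ∏ p ∈ d.primeFactors, jacobiSym ((q ^ i : ℕ) : ℤ) p = jacobiSym ((q ^ i : ℕ) : ℤ) d :=
    (jac_prod _ hd).trans rfl
  have : NeZero l := ⟨hl⟩
  have : NeZero d := ⟨hd.ne_zero⟩
  rw [e2, jacobiSym.mul_right, mul_comm, Nat.cast_pow, jacobiSym.pow_left, jacobiSym.pow_left,
    ← mul_pow]

theorem fO_mid {d l M q i : ℕ} (hd0 : d ≠ 0) (hq : q.Prime) (hqd : q ∣ d) (hi : i ≠ 0)
    (hM : q ^ (i + 1) ∣ M) : fO d l M (q ^ i) = 0 := by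
  unfold fO
  have hm : q ∈ d.primeFactors := Nat.mem_primeFactors.2 ⟨hq, hqd, hd0⟩
  rw [← Finset.mul_prod_erase _ _ hm, if_pos (dvd_pow_self q hi)]
  obtain ⟨c, hc⟩ := hM
  have e : M / q ^ i = q * c := by
    rw [hc, pow_succ, mul_assoc]
    exact Nat.mul_div_cancel_left _ (pow_pos hq.pos i)
  rw [e, jac_zero hq ⟨-(c : ℤ), by push_cast; ring⟩]
  ring

theorem jac4 {q : ℕ} (hq : q.Prime) (h2 : q ≠ 2) : jacobiSym 4 q = 1 := by
  rw [show (4 : ℤ) = 2 ^ 2 by norm_num]
  refine jacobiSym.sq_one' ?_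
  have h : q % 2 = 1 := hq.eq_two_or_odd.resolve_left h2
  rw [Int.gcd_comm]
  exact_mod_cast (Nat.coprime_two_right.2 (Nat.odd_iff.2 h))

theorem recip {a b : ℕ} (h : a * b % 4 = 3) : jacobiSym (a : ℤ) b = jacobiSym (b : ℤ) a := by
  have ha : Odd a := by
    rw [Nat.odd_iff]
    by_contra h1
    have : a % 2 = 0 := by omega
    obtain ⟨c, hc⟩ : 2 ∣ a := by omega
    rw [hc, mul_assoc] at h
    omega
  have hb : Odd b := by
    rw [Nat.odd_iff]
    by_contra h1
    obtain ⟨c, hc⟩ : 2 ∣ b := by omega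
    rw [hc, mul_left_comm] at h
    omega
  rw [← jacobiSym.quadratic_reciprocity_if (Nat.odd_iff.1 ha) (Nat.odd_iff.1 hb), if_neg]
  rintro ⟨h1, h2⟩
  rw [Nat.mul_mod, h1, h2] at h
  omega

theorem fac_split {M q : ℕ} (hM : M ≠ 0) (hq : q.Prime) (h2 : q ≠ 2) :
    (4 * M).factorization q = M.factorization q := by
  rw [Nat.factorization_mul (by norm_num) hM, Finsupp.add_apply,
    Nat.factorization_eq_zero_of_not_dvd (n := 4), zero_add]
  intro h
  exact h2 ((Nat.prime_dvd_prime_iff_eq hq Nat.prime_two).1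
    (hq.dvd_of_dvd_pow (show q ∣ 2 ^ 2 from h)))

theorem fO_top {d l M q : ℕ} (hd : Squarefree d) (hM : M ≠ 0) (hq : q.Prime) (hq2 : q ≠ 2)
    (hqd : q ∣ d) (hql : ¬ q ∣ l) (h4 : d * l % 4 = 3) (he : M.factorization q ≠ 0) :
    fO d l M (q ^ M.factorization q) = hh (d * l) (4 * M) q := by
  obtain ⟨d', rfl⟩ := hqd
  have hl0 : l ≠ 0 := by rintro rfl; exact hql (dvd_zero q)
  have hd' : Squarefree d' := hd.squarefree_of_dvd (dvd_mul_left d' q)
  have hcop : Nat.Coprime q d' := (Nat.squarefree_mul_iff.1 hd).1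
  have hqd' : ¬ q ∣ d' := (Nat.Prime.coprime_iff_not_dvd hq).1 hcop
  set e := M.factorization q with hedef
  obtain ⟨c, hc⟩ : q ^ e ∣ M := Nat.ordProj_dvd M q
  have hc0 : c ≠ 0 := by rintro rfl; exact hM (by rw [hc, mul_zero])
  have hqe : 0 < q ^ e := pow_pos hq.pos e
  have e1 : M / q ^ e = c := by
    conv_lhs => rw [hc]
    exact Nat.mul_div_cancel_left _ hqe
  have e2 : 4 * M / q ^ e = 4 * c := by
    conv_lhs => rw [hc, mul_left_comm]
    exact Nat.mul_div_cancel_left _ hqe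
  have e3 : q * d' * l / q = d' * l := by
    rw [mul_assoc]; exact Nat.mul_div_cancel_left _ hq.pos
  have hpf : (q * d').primeFactors = insert q d'.primeFactors := by
    rw [Nat.primeFactors_mul hq.ne_zero hd'.ne_zero, hq.primeFactors]
    rfl
  have hqn : q ∉ d'.primeFactors := fun h => hqd' (Nat.dvd_of_mem_primeFactors h)
  unfold fO hh
  rw [fac_split hM hq hq2, ← hedef, e1, e2, e3, hpf, Finset.prod_insert hqn,
    if_pos (dvd_pow_self q he)]
  have e4 : ∏ p ∈ d'.primeFactors, (if p ∣ q ^ e then jacobiSym (-((M / q ^ e : ℕ) : ℤ)) p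
      else jacobiSym ((q ^ e : ℕ) : ℤ) p) = jacobiSym ((q ^ e : ℕ) : ℤ) d' := by
    rw [← jac_prod _ hd']
    refine Finset.prod_congr rfl fun p hp => ?_
    rw [if_neg]
    intro h
    have h2 := (Nat.prime_dvd_prime_iff_eq (Nat.prime_of_mem_primeFactors hp) hq).1
      ((Nat.prime_of_mem_primeFactors hp).dvd_of_dvd_pow h)
    exact hqd' (h2 ▸ Nat.dvd_of_mem_primeFactors hp)
  rw [e1] at e4
  rw [e4]
  have : NeZero l := ⟨hl0⟩
  have : NeZero d' := ⟨hd'.ne_zero⟩
  have e5 : jacobiSym ((q ^ e : ℕ) : ℤ) l * jacobiSym ((q ^ e : ℕ) : ℤ) d' =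
      jacobiSym ((d' * l : ℕ) : ℤ) q ^ e := by
    rw [← recip (a := q) (b := d' * l) (by rw [← mul_assoc]; exact h4), jacobiSym.mul_right,
      Nat.cast_pow, jacobiSym.pow_left, jacobiSym.pow_left, ← mul_pow, mul_comm]
  have e6 : ¬ q ∣ d' * l := fun h => (hq.dvd_mul.1 h).elim hqd' hql
  have e7 := jsq hq e6
  have e8 : jacobiSym (-((4 * c : ℕ) : ℤ)) q = jacobiSym (-(c : ℤ)) q := by
    rw [show (-((4 * c : ℕ) : ℤ)) = 4 * (-(c : ℤ)) by push_cast; ring, jacobiSym.mul_left,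
      jac4 hq hq2, one_mul]
  have e9 : jacobiSym (-((d' * l * (4 * c) : ℕ) : ℤ)) q =
      jacobiSym ((d' * l : ℕ) : ℤ) q * jacobiSym (-(c : ℤ)) q := by
    rw [show (-((d' * l * (4 * c) : ℕ) : ℤ)) = ((d' * l : ℕ) : ℤ) * (-((4 * c : ℕ) : ℤ)) by
      push_cast; ring, jacobiSym.mul_left, e8]
  rw [e8, e9]
  have e10 : jacobiSym ((q ^ e : ℕ) : ℤ) l * (jacobiSym (-(c : ℤ)) q *
      jacobiSym ((q ^ e : ℕ) : ℤ) d') = jacobiSym ((d' * l : ℕ) : ℤ) q ^ e *
        jacobiSym (-(c : ℤ)) q := by rw [← e5]; ring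
  rw [e10]
  split_ifs with hev
  · obtain ⟨k, hk⟩ := hev
    rw [hk, ← two_mul, pow_mul, sq, e7, one_pow, one_mul]
  · rw [Nat.not_even_iff_odd] at hev
    obtain ⟨k, hk⟩ := hev
    rw [hk, pow_succ, pow_mul, sq, e7, one_pow, one_mul]

theorem chi_odd {n q : ℕ} (hq : q.Prime) (h2 : q ≠ 2) (h4 : n % 4 = 3) :
    jacobiSym (q : ℤ) n = jacobiSym (-(n : ℤ)) q := by
  have hq1 : q % 2 = 1 := hq.eq_two_or_odd.resolve_left h2
  rw [show (-(n : ℤ)) = -1 * n by ring, jacobiSym.mul_left, Pool.Agent.N975.RQ.jac_neg_one hq1,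
    ← jacobiSym.quadratic_reciprocity_if hq1 (by omega : n % 2 = 1)]
  by_cases h : q % 4 = 1
  · rw [if_pos h, if_neg (by omega), one_mul]
  · rw [if_neg h, if_pos (by omega)]
    ring

theorem chi_two {n : ℕ} (h4 : n % 4 = 3) : jacobiSym (2 : ℤ) n = if n % 8 = 7 then 1 else -1 := by
  rw [jacobiSym.at_two (Nat.odd_iff.2 (by omega)), ZMod.χ₈_nat_eq_if_mod_eight, if_neg (by omega)]
  by_cases h : n % 8 = 7
  · rw [if_pos h, if_pos (by omega)]
  · rw [if_neg h, if_neg (by omega)]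

/-- the factor at a level prime -/
def Lv (d l M q : ℕ) : ℤ := ∑ i ∈ (range (M.factorization q + 1)).filter (· ≠ 0),
  fO d l M (q ^ i)

theorem tw_val {n M : ℕ} (hM : M ≠ 0) (h4 : n % 4 = 3) :
    tw n (4 * M) = ∑ i ∈ range (M.factorization 2 + 1), jacobiSym (2 : ℤ) n ^ i := by
  unfold tw
  have e : (4 * M).factorization 2 = M.factorization 2 + 2 := by
    rw [Nat.factorization_mul (by norm_num) hM, Finsupp.add_apply, add_comm]
    congr 1
    rw [show 4 = 2 ^ 2 by norm_num, Nat.Prime.factorization_pow Nat.prime_two,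
      Finsupp.single_eq_same]
  rw [e, chi_two h4]
  rfl

/-- **evaluation of the divisor sum**, `d` odd -/
theorem W_odd {N D d l M : ℕ} (hN : Squarefree N) (hN2 : ¬ 2 ∣ N) (hNM : N ∣ M) (hM : M ≠ 0)
    (hd : Squarefree d) (hl : l.Prime) (h4 : d * l % 4 = 3) (hlM : ¬ l ∣ M) :
    W N D d l M = tw (d * l) (4 * M) * ∏ q ∈ (4 * M).primeFactors.erase 2,
      if q ∣ N then Lv d l M q else fac (d * l) (4 * M) q := by
  have h2d : ¬ 2 ∣ d := by
    rintro ⟨c, rfl⟩
    rw [mul_assoc] at h4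
    omega
  rw [W_fO h2d, sum_mult_sq hN hNM hM _ (fO_one d l M) fun a b h1 h2 => fO_mul hM h1 h2]
  have hpf : (4 * M).primeFactors.erase 2 = M.primeFactors.erase 2 := by
    rw [Nat.primeFactors_mul (by norm_num) hM]
    have : Nat.primeFactors 4 = {2} := by
      rw [show 4 = 2 ^ 2 by norm_num, Nat.primeFactors_prime_pow (by norm_num) Nat.prime_two]
    rw [this]
    ext q
    simp only [Finset.mem_erase, Finset.mem_union, Finset.mem_singleton]
    tauto
  rw [hpf]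
  have h2 : ∏ q ∈ M.primeFactors, ∑ i ∈ (range (M.factorization q + 1)).filter
      (fun i => q ∣ N → i ≠ 0), fO d l M (q ^ i) = tw (d * l) (4 * M) *
      ∏ q ∈ M.primeFactors.erase 2, ∑ i ∈ (range (M.factorization q + 1)).filter
      (fun i => q ∣ N → i ≠ 0), fO d l M (q ^ i) := by
    by_cases hm : 2 ∈ M.primeFactors
    · rw [← Finset.mul_prod_erase _ _ hm]
      congr 1
      rw [Finset.filter_true_of_mem (fun i _ h => absurd h hN2), tw_val hM h4]
      refine Finset.sum_congr rfl fun i _ => ?_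
      rw [fO_nd hd hl.ne_zero Nat.prime_two h2d]
      rfl
    · rw [Finset.erase_eq_of_notMem hm]
      have h5 : M.factorization 2 = 0 := by
        rw [← Nat.support_factorization, Finsupp.mem_support_iff, not_not] at hm
        exact hm
      rw [tw_val hM h4, h5, zero_add, Finset.sum_range_one, pow_zero, one_mul]
  rw [h2]
  congr 1
  refine Finset.prod_congr rfl fun q hq => ?_
  obtain ⟨hq2, hqm⟩ := Finset.mem_erase.1 hq
  have hqp := Nat.prime_of_mem_primeFactors hqm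
  have hqM := Nat.dvd_of_mem_primeFactors hqm
  have hql : q ≠ l := by rintro rfl; exact hlM hqM
  have hql' : ¬ q ∣ l := fun h => hql ((Nat.prime_dvd_prime_iff_eq hqp hl).1 h)
  by_cases hqN : q ∣ N
  · rw [if_pos hqN]
    unfold Lv
    refine Finset.sum_congr (Finset.filter_congr fun i _ => ?_) fun _ _ => rfl
    exact ⟨fun h => h hqN, fun h _ => h⟩
  · rw [if_neg hqN, Finset.filter_true_of_mem (fun i _ h => absurd h hqN)]
    unfold fac
    by_cases hqd : q ∣ d
    · rw [if_pos (hqd.mul_right l)]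
      have he : M.factorization q ≠ 0 := by
        rw [← Nat.support_factorization, Finsupp.mem_support_iff] at hqm
        exact hqm
      rw [← fO_top hd hM hqp hq2 hqd hql' h4 he, Finset.sum_range_succ,
        Finset.sum_eq_single_of_mem 0 (Finset.mem_range.2 (Nat.pos_of_ne_zero he)), pow_zero,
        fO_one]
      intro i hi hi0
      refine fO_mid hd.ne_zero hqp hqd hi0 ?_
      rw [Finset.mem_range] at hi
      exact (pow_dvd_pow q (by omega)).trans (Nat.ordProj_dvd M q)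
    · rw [if_neg (fun h => (hqp.dvd_mul.1 h).elim hqd hql'), fac_split hM hqp hq2]
      refine Finset.sum_congr rfl fun i _ => ?_
      rw [fO_nd hd hl.ne_zero hqp hqd, chi_odd hqp hq2 h4]

theorem sum_alt (e : ℕ) : ∑ i ∈ (range (e + 1)).filter (· ≠ 0), (-1 : ℤ) ^ i =
    if Odd e then -1 else 0 := by
  induction e with
  | zero => decide
  | succ e ih =>
    rw [Finset.range_add_one, Finset.filter_insert, if_pos (by omega),
      Finset.sum_insert (by simp), ih]
    by_cases h : Even e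
    · rw [if_neg (Nat.not_odd_iff_even.2 h), if_pos h.add_one, h.add_one.neg_one_pow, add_zero]
    · rw [Nat.not_even_iff_odd] at h
      rw [if_pos h, if_neg (Nat.not_odd_iff_even.2 h.add_one), h.add_one.neg_one_pow]
      norm_num

theorem sum_one (e : ℕ) : ∑ i ∈ (range (e + 1)).filter (· ≠ 0), (1 : ℤ) ^ i = e := by
  simp only [one_pow, Finset.sum_const, nsmul_eq_mul, mul_one]
  congr 1
  have : (range (e + 1)).filter (· ≠ 0) = (range (e + 1)).erase 0 := by
    ext i; simp [Finset.mem_erase, and_comm]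
  rw [this, Finset.card_erase_of_mem (by simp), Finset.card_range]
  rfl

/-- level prime, character `-1` -/
theorem Lv_ram {d l M q : ℕ} (hM : M ≠ 0) (hd : Squarefree d) (hl : l.Prime)
    (h4 : d * l % 4 = 3) (hq : q.Prime) (hq2 : q ≠ 2) (hqd : ¬ q ∣ d)
    (hj : jacobiSym (-((d * l : ℕ) : ℤ)) q = -1) :
    Lv d l M q = if Odd ((4 * M).factorization q) then -1 else 0 := by
  rw [fac_split hM hq hq2, ← sum_alt]
  unfold Lv
  refine Finset.sum_congr rfl fun i _ => ?_
  rw [fO_nd hd hl.ne_zero hq hqd, chi_odd hq hq2 h4, hj]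

/-- level prime, character `1` -/
theorem Lv_lev {d l M q : ℕ} (hM : M ≠ 0) (hd : Squarefree d) (hl : l.Prime)
    (h4 : d * l % 4 = 3) (hq : q.Prime) (hq2 : q ≠ 2) (hqd : ¬ q ∣ d)
    (hj : jacobiSym (-((d * l : ℕ) : ℤ)) q = 1) :
    Lv d l M q = (4 * M).factorization q := by
  rw [fac_split hM hq hq2, ← sum_one]
  unfold Lv
  refine Finset.sum_congr rfl fun i _ => ?_
  rw [fO_nd hd hl.ne_zero hq hqd, chi_odd hq hq2 h4, hj]

/-- level prime dividing `d` -/
theorem Lv_div {d l M q : ℕ} (hM : M ≠ 0) (hd : Squarefree d)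
    (h4 : d * l % 4 = 3) (hq : q.Prime) (hq2 : q ≠ 2) (hqd : q ∣ d) (hql : ¬ q ∣ l)
    (he : M.factorization q = 1) :
    Lv d l M q = hh (d * l) (4 * M) q := by
  have h := fO_top hd hM hq hq2 hqd hql h4 (by omega)
  unfold Lv
  rw [he] at h ⊢
  have : (range (1 + 1)).filter (· ≠ 0) = {1} := by decide
  rw [this, Finset.sum_singleton, h]

end Pool.Agent.N816.RQ
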