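import Pool.Agent.N816.RQ.C2J
import Pool.Agent.N816.P17.Flip
import Pool.Agent.N969.RQ.Defs3

/-!
# Project RQ: the divisor sums for all auxiliary primes (helper816)
-/

set_option autoImplicit false

namespace Pool.Agent.N816.RQ

open Finset
open Pool.Agent.Z700 (hh fac)
open Pool.Agent.N969.P15 (c2 tw un)
open Pool.Agent.N969.P17G (gen)
open Pool.Agent.N969.RQ
open Pool.Agent.N975.PG (jac_zero jac_sq jac_congr jac_prod)
open Pool.Agent.N975.RQ (fd_sq fd_pos un_symm ps_sw)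
open Pool.Agent.N218.RQ (odd_part)

/-! ### roots modulo `l` -/

theorem exists_sq {l : ℕ} (hl : l.Prime) {a : ℤ} (h : jacobiSym a l = 1) :
    ∃ r : ℤ, (l : ℤ) ∣ r ^ 2 - a := by
  haveI : Fact l.Prime := ⟨hl⟩
  rw [← jacobiSym.legendreSym.to_jacobiSym] at h
  have h0 : (a : ZMod l) ≠ 0 := by
    intro h1
    rw [(legendreSym.eq_zero_iff l a).2 h1] at h
    norm_num at h
  obtain ⟨r, hr⟩ := (legendreSym.eq_one_iff l h0).1 h
  refine ⟨(r.val : ℤ), ?_⟩
  rw [← ZMod.intCast_zmod_eq_zero_iff_dvd]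
  push_cast
  rw [ZMod.natCast_val, ZMod.cast_id', id, hr]
  ring

theorem js_pm {l : ℕ} (hl : l.Prime) {a : ℤ} (h : ¬ (l : ℤ) ∣ a) :
    jacobiSym a l = 1 ∨ jacobiSym a l = -1 := by
  rcases jacobiSym.trichotomy a l with h1 | h1 | h1
  · have := jac_sq hl h
    rw [h1] at this
    norm_num at this
  · exact Or.inl h1
  · exact Or.inr h1

theorem nd2 {l : ℕ} (hl : l.Prime) (hl2 : l ≠ 2) : ¬ (l : ℤ) ∣ 2 := fun h =>
  hl2 ((Nat.prime_dvd_prime_iff_eq hl Nat.prime_two).1 (by exact_mod_cast h))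

theorem nd4 {l : ℕ} (hl : l.Prime) (hl2 : l ≠ 2) : ¬ (l : ℤ) ∣ 4 := fun h =>
  nd2 hl hl2 ((Nat.prime_iff_prime_int.1 hl).dvd_of_dvd_pow (show (l : ℤ) ∣ 2 ^ 2 by simpa using h))

theorem ndm {l : ℕ} (hl : l.Prime) {a b : ℤ} (ha : ¬ (l : ℤ) ∣ a) (hb : ¬ (l : ℤ) ∣ b) :
    ¬ (l : ℤ) ∣ a * b := fun h => ((Nat.prime_iff_prime_int.1 hl).dvd_mul.1 h).elim ha hb

/-- the natural representative -/
theorem rep {l : ℕ} (hl : l.Prime) (x : ℤ) : ∃ u : ℕ, u < l ∧ (l : ℤ) ∣ (u : ℤ) - x := by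
  have h0 : (l : ℤ) ≠ 0 := by exact_mod_cast hl.ne_zero
  refine ⟨(x % l).toNat, ?_, ?_⟩
  · have h1 := Int.emod_lt_of_pos x (by exact_mod_cast hl.pos : (0 : ℤ) < l)
    have h2 := Int.emod_nonneg x h0
    omega
  · rw [Int.toNat_of_nonneg (Int.emod_nonneg x h0)]
    have := Int.mul_ediv_add_emod x l
    exact ⟨-(x / l), by linear_combination this⟩

theorem mem_un {l u : ℕ} (hl : l.Prime) : u ∈ un l ↔ u < l ∧ ¬ (l : ℤ) ∣ (u : ℤ) := by
  unfold un
  rw [Finset.mem_filter, Finset.mem_range]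
  refine and_congr_right fun _ => ?_
  rw [Nat.coprime_comm, Nat.Prime.coprime_iff_not_dvd hl, Int.natCast_dvd_natCast]

theorem un_eq {l u v : ℕ} (hu : u < l) (hv : v < l) (h : (l : ℤ) ∣ (u : ℤ) - v) : u = v := by
  have h1 : (u : ℤ) % l = (v : ℤ) % l := Int.emod_eq_emod_iff_emod_sub_eq_zero.2
    (Int.emod_eq_zero_of_dvd h)
  rw [Int.emod_eq_of_lt (by positivity) (by exact_mod_cast hu),
    Int.emod_eq_of_lt (by positivity) (by exact_mod_cast hv)] at h1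
  exact_mod_cast h1

theorem inv_l {l : ℕ} (hl : l.Prime) {a : ℤ} (ha : ¬ (l : ℤ) ∣ a) :
    ∃ r : ℤ, (l : ℤ) ∣ r * a - 1 ∧ jacobiSym r l = jacobiSym a l := by
  obtain ⟨r, k, h⟩ : IsCoprime a (l : ℤ) :=
    ((Nat.prime_iff_prime_int.1 hl).coprime_iff_not_dvd.2 ha).symm
  have h1 : (l : ℤ) ∣ r * a - 1 := ⟨-k, by linear_combination h⟩
  refine ⟨r, h1, ?_⟩
  have h2 : jacobiSym r l * jacobiSym a l = 1 := by
    rw [← jacobiSym.mul_left, jac_congr h1, jacobiSym.one_left]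
  have h3 : jacobiSym a l ^ 2 = 1 := jac_sq hl ha
  linear_combination jacobiSym a l * h2 - jacobiSym r l * h3

/-- one root -/
theorem rho_lin {l : ℕ} (hl : l.Prime) {α β : ℤ} (ha : ¬ (l : ℤ) ∣ α) (hb : ¬ (l : ℤ) ∣ β)
    (P : ℕ → Prop) [DecidablePred P]
    (hP : ∀ u : ℕ, ¬ (l : ℤ) ∣ (u : ℤ) → (P u ↔ (l : ℤ) ∣ α * u - β)) :
    ∑ u ∈ (un l).filter P, jacobiSym u l = jacobiSym (α * β) l := by
  obtain ⟨r, hr, hjr⟩ := inv_l hl ha
  obtain ⟨u0, hu0, hu0'⟩ := rep hl (r * β)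
  have h1 : (l : ℤ) ∣ α * u0 - β := by
    have e : α * u0 - β = α * (u0 - r * β) + β * (r * α - 1) := by ring
    rw [e]
    exact (hu0'.mul_left _).add (hr.mul_left _)
  have hn : ¬ (l : ℤ) ∣ (u0 : ℤ) := by
    intro h2
    apply hb
    have e : β = α * u0 - (α * u0 - β) := by ring
    rw [e]
    exact (h2.mul_left _).sub h1
  have h2 : (un l).filter P = {u0} := by
    ext u
    rw [Finset.mem_filter, Finset.mem_singleton, mem_un hl]
    constructor
    · rintro ⟨⟨h3, h4⟩, h5⟩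
      rw [hP u h4] at h5
      refine un_eq h3 hu0 ?_
      have e : α * ((u : ℤ) - u0) = (α * u - β) - (α * u0 - β) := by ring
      have h6 : (l : ℤ) ∣ α * ((u : ℤ) - u0) := by rw [e]; exact h5.sub h1
      exact ((Nat.prime_iff_prime_int.1 hl).dvd_mul.1 h6).resolve_left ha
    · rintro rfl
      exact ⟨⟨hu0, hn⟩, (hP u hn).2 h1⟩
  rw [h2, Finset.sum_singleton, jac_congr hu0', jacobiSym.mul_left, hjr, ← jacobiSym.mul_left]

/-- two roots -/
theorem rho_two {l a a' : ℕ} {t s : ℤ} (hl : l.Prime) (hl2 : l ≠ 2) (ha : ¬ l ∣ a)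
    (ha' : ¬ l ∣ a') (hs : (l : ℤ) ∣ s ^ 2 - (t ^ 2 + 4 * (a * a'))) (hs0 : ¬ (l : ℤ) ∣ s) :
    rho l a a' t = jacobiSym (2 * a) l * jacobiSym (t + s) l *
      (1 + jacobiSym (-((a : ℤ) * a')) l) := by
  have hlp := Nat.prime_iff_prime_int.1 hl
  have h2 := nd2 hl hl2
  have h4 := nd4 hl hl2
  have ha1 : ¬ (l : ℤ) ∣ (a : ℤ) := nd_int ha
  have ha1' : ¬ (l : ℤ) ∣ (a' : ℤ) := nd_int ha'
  have h2a := ndm hl h2 ha1
  obtain ⟨r, hr, hjr⟩ := inv_l hl h2a
  obtain ⟨u1, hu1, hu1'⟩ := rep hl (r * (t + s))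
  obtain ⟨u2, hu2, hu2'⟩ := rep hl (r * (t - s))
  have hprod : (l : ℤ) ∣ (t + s) * (t - s) - -4 * (a * a') := by
    have e : (t + s) * (t - s) - -4 * ((a : ℤ) * a') = -(s ^ 2 - (t ^ 2 + 4 * (a * a'))) := by ring
    rw [e]
    exact (dvd_neg.2 hs)
  have hn : ¬ (l : ℤ) ∣ (t + s) * (t - s) := by
    intro h
    have h5 : (l : ℤ) ∣ -4 * ((a : ℤ) * a') := by
      have e : -4 * ((a : ℤ) * a') = (t + s) * (t - s) - ((t + s) * (t - s) - -4 * (a * a')) := by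
        ring
      rw [e]
      exact h.sub hprod
    have h6 : (l : ℤ) ∣ 4 * ((a : ℤ) * a') := by
      have e : 4 * ((a : ℤ) * a') = -(-4 * (a * a')) := by ring
      rw [e]; exact dvd_neg.2 h5
    exact ndm hl h4 (ndm hl ha1 ha1') h6
  have hp : ¬ (l : ℤ) ∣ t + s := fun h => hn (h.mul_right _)
  have hm : ¬ (l : ℤ) ∣ t - s := fun h => hn (h.mul_left _)
  have hr0 : ¬ (l : ℤ) ∣ r := by
    intro h
    have : (l : ℤ) ∣ 1 := by
      have e : (1 : ℤ) = r * (2 * a) - (r * (2 * a) - 1) := by ring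
      rw [e]
      exact (h.mul_right _).sub hr
    exact hlp.not_unit (isUnit_of_dvd_one this)
  have root : ∀ (u : ℕ) (x : ℤ), (l : ℤ) ∣ (u : ℤ) - r * x → (l : ℤ) ∣ 2 * a * u - x := by
    intro u x h
    have e : 2 * (a : ℤ) * u - x = 2 * a * (u - r * x) + x * (r * (2 * a) - 1) := by ring
    rw [e]
    exact (h.mul_left _).add (hr.mul_left _)
  have nz : ∀ (u : ℕ) (x : ℤ), (l : ℤ) ∣ (u : ℤ) - r * x → ¬ (l : ℤ) ∣ x → ¬ (l : ℤ) ∣ (u : ℤ) := by
    intro u x h hx h5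
    apply ndm hl hr0 hx
    have e : r * x = u - (u - r * x) := by ring
    rw [e]
    exact h5.sub h
  have hne : u1 ≠ u2 := by
    rintro rfl
    have h5 : (l : ℤ) ∣ r * (2 * s) := by
      have e : r * (2 * s) = ((u1 : ℤ) - r * (t - s)) - (u1 - r * (t + s)) := by ring
      rw [e]
      exact hu2'.sub hu1'
    exact ndm hl hr0 (ndm hl h2 hs0) h5
  have hset : (un l).filter (fun u : ℕ => (l : ℤ) ∣ (a : ℤ) * u ^ 2 - t * u - a') = {u1, u2} := by
    ext u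
    rw [Finset.mem_filter, Finset.mem_insert, Finset.mem_singleton, mem_un hl]
    have key : 4 * a * ((a : ℤ) * u ^ 2 - t * u - a') =
        (2 * a * u - (t + s)) * (2 * a * u - (t - s)) + (s ^ 2 - (t ^ 2 + 4 * (a * a'))) := by ring
    have h4a := ndm hl h4 ha1
    constructor
    · rintro ⟨⟨h5, h6⟩, h7⟩
      have h8 : (l : ℤ) ∣ (2 * a * u - (t + s)) * (2 * a * u - (t - s)) := by
        have e : (2 * (a : ℤ) * u - (t + s)) * (2 * a * u - (t - s)) =
          4 * a * ((a : ℤ) * u ^ 2 - t * u - a') - (s ^ 2 - (t ^ 2 + 4 * (a * a'))) := by ring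
        rw [e]
        exact (h7.mul_left _).sub hs
      rcases hlp.dvd_mul.1 h8 with h9 | h9
      · left
        refine un_eq h5 hu1 ?_
        have e : 2 * (a : ℤ) * ((u : ℤ) - u1) = (2 * a * u - (t + s)) - (2 * a * u1 - (t + s)) := by
          ring
        have h10 : (l : ℤ) ∣ 2 * (a : ℤ) * ((u : ℤ) - u1) := by
          rw [e]; exact h9.sub (root u1 _ hu1')
        exact (hlp.dvd_mul.1 h10).resolve_left h2a
      · right
        refine un_eq h5 hu2 ?_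
        have e : 2 * (a : ℤ) * ((u : ℤ) - u2) = (2 * a * u - (t - s)) - (2 * a * u2 - (t - s)) := by
          ring
        have h10 : (l : ℤ) ∣ 2 * (a : ℤ) * ((u : ℤ) - u2) := by
          rw [e]; exact h9.sub (root u2 _ hu2')
        exact (hlp.dvd_mul.1 h10).resolve_left h2a
    · rintro (rfl | rfl)
      · refine ⟨⟨hu1, nz u _ hu1' hp⟩, ?_⟩
        have h5 : (l : ℤ) ∣ 4 * a * ((a : ℤ) * u ^ 2 - t * u - a') := by
          rw [key]; exact ((root u _ hu1').mul_right _).add hs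
        exact (hlp.dvd_mul.1 h5).resolve_left h4a
      · refine ⟨⟨hu2, nz u _ hu2' hm⟩, ?_⟩
        have h5 : (l : ℤ) ∣ 4 * a * ((a : ℤ) * u ^ 2 - t * u - a') := by
          rw [key]; exact ((root u _ hu2').mul_left _).add hs
        exact (hlp.dvd_mul.1 h5).resolve_left h4a
  unfold rho
  rw [hset, Finset.sum_pair hne, jac_congr hu1', jac_congr hu2', jacobiSym.mul_left,
    jacobiSym.mul_left, hjr]
  have e1 : jacobiSym (t - s) l = jacobiSym (t + s) l * jacobiSym (-((a : ℤ) * a')) l := by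
    have h5 : jacobiSym (t + s) l * jacobiSym (t - s) l = jacobiSym (-((a : ℤ) * a')) l := by
      rw [← jacobiSym.mul_left, jac_congr hprod,
        show -4 * ((a : ℤ) * a') = 4 * (-((a : ℤ) * a')) by ring, jacobiSym.mul_left, jac4 hl hl2,
        one_mul]
    rw [← h5]
    linear_combination (-jacobiSym (t - s) l) * jac_sq hl hp
  rw [e1]
  ring

/-! ### the sign of a pair -/

theorem sj_root {D d l : ℕ} {t c : ℤ} (hl : l.Prime) (hl2 : l ≠ 2) (hd : d ∣ D)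
    (hj : jacobiSym D l = 1)
    (hc : (l : ℤ) ∣ (D / d : ℕ) * c ^ 2 - 2 * t * c + d) :
    (∀ s : ℤ, (l : ℤ) ∣ s ^ 2 - D → ¬ (l : ℤ) ∣ t ^ 2 - D →
      jacobiSym c l = jacobiSym d l * jacobiSym (2 * (t + s)) l) ∧
    ((l : ℤ) ∣ t ^ 2 - D → jacobiSym c l = jacobiSym d l * jacobiSym t l) := by
  have hlp := Nat.prime_iff_prime_int.1 hl
  have hde : ((d * (D / d) : ℕ) : ℤ) = D := by rw [Nat.mul_div_cancel' hd]
  set e : ℕ := D / d with he
  push_cast at hde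
  have hjde : jacobiSym (e : ℤ) l = jacobiSym d l := jac_swap hl hd hj
  have hlD : ¬ (l : ℤ) ∣ (D : ℤ) := by
    intro h
    rw [jac_zero hl h] at hj
    norm_num at hj
  have hle : ¬ (l : ℤ) ∣ (e : ℤ) := fun h => hlD (by rw [← hde]; exact h.mul_left _)
  set r : ℤ := e * c - t with hr
  have hr2 : (l : ℤ) ∣ r ^ 2 - (t ^ 2 - D) := by
    have : r ^ 2 - (t ^ 2 - D) = e * (e * c ^ 2 - 2 * t * c + d) := by
      rw [hr, ← hde]; ring
    rw [this]
    exact hc.mul_left _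
  have hjc : jacobiSym c l = jacobiSym d l * jacobiSym (t + r) l := by
    have h1 : t + r = e * c := by rw [hr]; ring
    rw [h1, jacobiSym.mul_left, hjde]
    linear_combination (-jacobiSym c l) * jac_sq hl (by
      intro h; exact hlD (by rw [← hde]; exact h.mul_right _) : ¬ (l : ℤ) ∣ (d : ℤ))
  constructor
  · intro s hs ht
    rw [hjc]
    congr 1
    have h2 := nd2 hl hl2
    have hts : ¬ (l : ℤ) ∣ t + s := by
      intro h
      apply ht
      have : t ^ 2 - D = (t + s) * (t - s) + (s ^ 2 - D) := by ring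
      rw [this]
      exact (h.mul_right _).add hs
    have htr : ¬ (l : ℤ) ∣ t + r := by
      intro h
      apply hlD
      have : (D : ℤ) = (t + r) * (t - r) + (r ^ 2 - (t ^ 2 - D)) := by ring
      rw [this]
      exact (h.mul_right _).add hr2
    have hsq : (l : ℤ) ∣ 2 * (t + s) * (t + r) - (t + s + r) ^ 2 := by
      have : 2 * (t + s) * (t + r) - (t + s + r) ^ 2 = -(s ^ 2 - D) - (r ^ 2 - (t ^ 2 - D)) := by ring
      rw [this]
      exact (dvd_neg.2 hs).sub hr2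
    have hn : ¬ (l : ℤ) ∣ t + s + r := by
      intro h
      apply ndm hl (ndm hl h2 hts) htr
      have : 2 * (t + s) * (t + r) = (2 * (t + s) * (t + r) - (t + s + r) ^ 2) + (t + s + r) ^ 2 := by
        ring
      rw [this]
      exact hsq.add (dvd_pow h two_ne_zero)
    have h5 : jacobiSym (2 * (t + s)) l * jacobiSym (t + r) l = 1 := by
      rw [← jacobiSym.mul_left, jac_congr hsq, jacobiSym.pow_left, jac_sq hl hn]
    linear_combination (-jacobiSym (t + r) l) * jac_sq hl (ndm hl h2 hts) +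
      jacobiSym (2 * (t + s)) l * h5
  · intro ht
    rw [hjc]
    congr 1
    apply jac_congr
    have h5 : (l : ℤ) ∣ r ^ 2 := by
      have : r ^ 2 = (r ^ 2 - (t ^ 2 - D)) + (t ^ 2 - D) := by ring
      rw [this]
      exact hr2.add ht
    have h6 := hlp.dvd_of_dvd_pow h5
    simpa using h6

theorem sj_val {D d l : ℕ} {t ε : ℤ} (hl : l.Prime) (hε : ε = 1 ∨ ε = -1)
    (hex : ∃ c : ℤ, (l : ℤ) ∣ (D / d : ℕ) * c ^ 2 - 2 * t * c + d)
    (hall : ∀ c : ℤ, (l : ℤ) ∣ (D / d : ℕ) * c ^ 2 - 2 * t * c + d → jacobiSym c l = ε) :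
    sj D d l (l * t) = ε := by
  have hl0 : (l : ℤ) ≠ 0 := by exact_mod_cast hl.ne_zero
  unfold sj
  rw [if_pos (dvd_mul_right _ _), Int.mul_ediv_cancel_left _ hl0]
  rcases hε with rfl | rfl
  · obtain ⟨c, hc⟩ := hex
    rw [if_pos ⟨c, hc, hall c hc⟩]
  · rw [if_neg]
    rintro ⟨c, hc, h⟩
    rw [hall c hc] at h
    norm_num at h

/-- a root exists if `t² - D` is a square -/
theorem root_ex {D d l : ℕ} {t r : ℤ} (hl : l.Prime) (hd : d ∣ D) (hlD : ¬ l ∣ D)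
    (hr : (l : ℤ) ∣ r ^ 2 - (t ^ 2 - D)) :
    ∃ c : ℤ, (l : ℤ) ∣ (D / d : ℕ) * c ^ 2 - 2 * t * c + d := by
  have hlp := Nat.prime_iff_prime_int.1 hl
  have hde : ((d * (D / d) : ℕ) : ℤ) = D := by rw [Nat.mul_div_cancel' hd]
  set e : ℕ := D / d with he
  have hle : ¬ l ∣ e := fun h => hlD (h.trans (he ▸ Nat.div_dvd_of_dvd hd))
  push_cast at hde
  obtain ⟨x, hx, -⟩ := inv_l hl (nd_int hle)
  refine ⟨x * (t + r), ?_⟩
  have h1 : (l : ℤ) ∣ e * ((e : ℤ) * (x * (t + r)) ^ 2 - 2 * t * (x * (t + r)) + d) := by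
    have : (e : ℤ) * ((e : ℤ) * (x * (t + r)) ^ 2 - 2 * t * (x * (t + r)) + d) =
        (x * e - 1) * ((x * e + 1) * (t + r) ^ 2 - 2 * t * (t + r)) +
          (r ^ 2 - (t ^ 2 - D)) := by
      rw [← hde]; ring
    rw [this]
    exact (hx.mul_right _).add hr
  exact (hlp.dvd_mul.1 h1).resolve_left (nd_int hle)

end Pool.Agent.N816.RQ
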