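import Pool.Agent.N816.RQ.Plus

/-!
# Project RQ: the divisor sums for all auxiliary primes, second part (helper816)
-/

set_option autoImplicit false

namespace Pool.Agent.N816.RQ

open Finset
open Pool.Agent.Z700 (hh fac)
open Pool.Agent.N969.P15 (c2 tw un)
open Pool.Agent.N969.P17G (gen)
open Pool.Agent.N969.RQ
open Pool.Agent.N975.PG (jac_zero jac_sq jac_congr jac_prod)
open Pool.Agent.N975.RQ (fd_sq fd_pos un_symm ps_sw)
open Pool.Agent.N218.RQ (odd_part)
open Pool.Agent.N816.P17.Flip (sum_two)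

/-- the weight without the symbol at `l` -/
def Pw (d M a : ℕ) : ℤ := ∏ p ∈ d.primeFactors,
  if p ∣ a then jacobiSym (-((M / a : ℕ) : ℤ)) p else jacobiSym a p

theorem fO_Pw (d l M a : ℕ) : fO d l M a = jacobiSym a l * Pw d M a := rfl

theorem pw_Pw {D d a M : ℕ} (h2 : ¬ 2 ∣ d) : pw D d a M = Pw d M a := by
  unfold pw Pw
  rw [if_neg h2, one_mul, Finset.erase_eq_of_notMem]
  exact fun h => h2 (Nat.dvd_of_mem_primeFactors h)

theorem fO_l {d l M a : ℕ} (hl : l.Prime) (h : l ∣ a) : fO d l M a = 0 := by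
  rw [fO_Pw, jac_zero hl (Int.natCast_dvd_natCast.2 h), zero_mul]

/-- **evaluation of the divisor sum**, `d` odd, `l` may divide `M` -/
theorem W_odd2 {N D d l M : ℕ} (hN : Squarefree N) (hN2 : ¬ 2 ∣ N) (hlN : ¬ l ∣ N) (hNM : N ∣ M)
    (hM : M ≠ 0) (hd : Squarefree d) (hl : l.Prime) (hld : ¬ l ∣ d)
    (h4 : d * l % 4 = 3) :
    W N D d l M = tw (d * l) (4 * M) * ∏ q ∈ ((4 * M).primeFactors.erase 2).erase l,
      if q ∣ N then Lv d l M q else fac (d * l) (4 * M) q := by
  have h2d : ¬ 2 ∣ d := by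
    rintro ⟨c, rfl⟩
    rw [mul_assoc] at h4
    omega
  rw [W_fO h2d, sum_mult_sq hN hNM hM _ (fO_one d l M) fun a b h1 h2 => fO_mul hM h1 h2]
  have hpf : (4 * M).primeFactors.erase 2 = M.primeFactors.erase 2 := by
    rw [Nat.primeFactors_mul (by norm_num) hM]
    have : Nat.primeFactors 4 = {2} := by
      rw [show 4 = 2 ^ 2 by norm_num, Nat.primeFactors_prime_pow (by norm_num) Nat.prime_two]
    rw [this]
    ext q
    simp only [Finset.mem_erase, Finset.mem_union, Finset.mem_singleton]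
    tauto
  rw [hpf]
  have h2 : ∏ q ∈ M.primeFactors, ∑ i ∈ (range (M.factorization q + 1)).filter
      (fun i => q ∣ N → i ≠ 0), fO d l M (q ^ i) = tw (d * l) (4 * M) *
      ∏ q ∈ M.primeFactors.erase 2, ∑ i ∈ (range (M.factorization q + 1)).filter
      (fun i => q ∣ N → i ≠ 0), fO d l M (q ^ i) := by
    by_cases hm : 2 ∈ M.primeFactors
    · rw [← Finset.mul_prod_erase _ _ hm]
      congr 1
      rw [Finset.filter_true_of_mem (fun i _ h => absurd h hN2), tw_val hM h4]
      refine Finset.sum_congr rfl fun i _ => ?_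
      rw [fO_nd hd hl.ne_zero Nat.prime_two h2d]
      rfl
    · rw [Finset.erase_eq_of_notMem hm]
      have h5 : M.factorization 2 = 0 := by
        rw [← Nat.support_factorization, Finsupp.mem_support_iff, not_not] at hm
        exact hm
      rw [tw_val hM h4, h5, zero_add, Finset.sum_range_one, pow_zero, one_mul]
  rw [h2]
  congr 1
  have h3 : ∏ q ∈ M.primeFactors.erase 2, ∑ i ∈ (range (M.factorization q + 1)).filter
      (fun i => q ∣ N → i ≠ 0), fO d l M (q ^ i) =
      ∏ q ∈ (M.primeFactors.erase 2).erase l, ∑ i ∈ (range (M.factorization q + 1)).filter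
      (fun i => q ∣ N → i ≠ 0), fO d l M (q ^ i) := by
    by_cases hm : l ∈ M.primeFactors.erase 2
    · rw [← Finset.mul_prod_erase _ _ hm, Finset.filter_true_of_mem (fun i _ h => absurd h hlN),
        Finset.sum_eq_single_of_mem 0 (Finset.mem_range.2 (Nat.succ_pos _)), pow_zero, fO_one,
        one_mul]
      intro i _ hi
      exact fO_l hl (dvd_pow_self l hi)
    · rw [Finset.erase_eq_of_notMem hm]
  rw [h3]
  refine Finset.prod_congr rfl fun q hq => ?_
  obtain ⟨hql, hq'⟩ := Finset.mem_erase.1 hq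
  obtain ⟨hq2, hqm⟩ := Finset.mem_erase.1 hq'
  have hqp := Nat.prime_of_mem_primeFactors hqm
  have hqM := Nat.dvd_of_mem_primeFactors hqm
  have hql' : ¬ q ∣ l := fun h => hql ((Nat.prime_dvd_prime_iff_eq hqp hl).1 h)
  by_cases hqN : q ∣ N
  · rw [if_pos hqN]
    unfold Lv
    refine Finset.sum_congr (Finset.filter_congr fun i _ => ?_) fun _ _ => rfl
    exact ⟨fun h => h hqN, fun h _ => h⟩
  · rw [if_neg hqN, Finset.filter_true_of_mem (fun i _ h => absurd h hqN)]
    unfold fac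
    by_cases hqd : q ∣ d
    · rw [if_pos (hqd.mul_right l)]
      have he : M.factorization q ≠ 0 := by
        rw [← Nat.support_factorization, Finsupp.mem_support_iff] at hqm
        exact hqm
      rw [← fO_top hd hM hqp hq2 hqd hql' h4 he, Finset.sum_range_succ,
        Finset.sum_eq_single_of_mem 0 (Finset.mem_range.2 (Nat.pos_of_ne_zero he)), pow_zero,
        fO_one]
      intro i hi hi0
      refine fO_mid hd.ne_zero hqp hqd hi0 ?_
      rw [Finset.mem_range] at hi
      exact (pow_dvd_pow q (by omega)).trans (Nat.ordProj_dvd M q)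
    · rw [if_neg (fun h => (hqp.dvd_mul.1 h).elim hqd hql'), fac_split hM hqp hq2]
      refine Finset.sum_congr rfl fun i _ => ?_
      rw [fO_nd hd hl.ne_zero hqp hqd, chi_odd hqp hq2 h4]

/-! ### from `4 M` to `4 l² M` -/

section scale

variable {l M : ℕ} (hl : l.Prime) (hM : M ≠ 0)

include hl hM

theorem v_scale {q : ℕ} (hq : q.Prime) (hql : q ≠ l) :
    (4 * (l ^ 2 * M)).factorization q = (4 * M).factorization q := by
  have e : 4 * (l ^ 2 * M) = l ^ 2 * (4 * M) := by ring
  rw [e, Nat.factorization_mul (pow_ne_zero 2 hl.ne_zero) (by omega), Finsupp.add_apply,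
    Nat.factorization_eq_zero_of_not_dvd (n := l ^ 2), zero_add]
  intro h
  exact hql ((Nat.prime_dvd_prime_iff_eq hq hl).1 (hq.dvd_of_dvd_pow h))

theorem div_scale {q : ℕ} (hq : q.Prime) (hql : q ≠ l) :
    4 * (l ^ 2 * M) / q ^ (4 * (l ^ 2 * M)).factorization q =
      l ^ 2 * (4 * M / q ^ (4 * M).factorization q) := by
  rw [v_scale hl hM hq hql]
  obtain ⟨c, hc⟩ := Nat.ordProj_dvd (4 * M) q
  have hpos : 0 < q ^ (4 * M).factorization q := pow_pos hq.pos _
  have e1 : 4 * M / q ^ (4 * M).factorization q = c := Nat.div_eq_of_eq_mul_right hpos hc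
  have e2 : 4 * (l ^ 2 * M) = q ^ (4 * M).factorization q * (l ^ 2 * c) := by
    calc 4 * (l ^ 2 * M) = l ^ 2 * (4 * M) := by ring
      _ = l ^ 2 * (q ^ (4 * M).factorization q * c) := by rw [← hc]
      _ = _ := by ring
  rw [e1]
  exact Nat.div_eq_of_eq_mul_right hpos e2

theorem hh_scale {n q : ℕ} (hq : q.Prime) (hql : q ≠ l) :
    hh n (4 * (l ^ 2 * M)) q = hh n (4 * M) q := by
  unfold hh
  rw [div_scale hl hM hq hql, v_scale hl hM hq hql]
  have h1 : ¬ (q : ℤ) ∣ l := fun h =>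
    hql ((Nat.prime_dvd_prime_iff_eq hq hl).1 (Int.natCast_dvd_natCast.1 h))
  have h2 := jac_sq hq h1
  set c := 4 * M / q ^ (4 * M).factorization q
  have e1 : jacobiSym (-((l ^ 2 * c : ℕ) : ℤ)) q = jacobiSym (-(c : ℤ)) q := by
    rw [show (-((l ^ 2 * c : ℕ) : ℤ)) = (l : ℤ) ^ 2 * (-(c : ℤ)) by push_cast; ring,
      jacobiSym.mul_left, jacobiSym.pow_left, h2, one_mul]
  have e2 : jacobiSym (-((n / q * (l ^ 2 * c) : ℕ) : ℤ)) q =
      jacobiSym (-((n / q * c : ℕ) : ℤ)) q := by
    rw [show (-((n / q * (l ^ 2 * c) : ℕ) : ℤ)) = (l : ℤ) ^ 2 * (-((n / q * c : ℕ) : ℤ)) by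
      push_cast; ring, jacobiSym.mul_left, jacobiSym.pow_left, h2, one_mul]
  rw [e1, e2]

theorem fac_scale {n q : ℕ} (hq : q.Prime) (hql : q ≠ l) :
    fac n (4 * (l ^ 2 * M)) q = fac n (4 * M) q := by
  unfold fac
  rw [hh_scale hl hM hq hql, v_scale hl hM hq hql]

theorem tw_scale {n : ℕ} (hl2 : l ≠ 2) : tw n (4 * (l ^ 2 * M)) = tw n (4 * M) := by
  unfold tw
  rw [v_scale hl hM Nat.prime_two (Ne.symm hl2)]

theorem pf_scale : ((4 * (l ^ 2 * M)).primeFactors.erase 2).erase l =
    ((4 * M).primeFactors.erase 2).erase l := by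
  have e : 4 * (l ^ 2 * M) = l ^ 2 * (4 * M) := by ring
  rw [e, Nat.primeFactors_mul (pow_ne_zero 2 hl.ne_zero) (by omega),
    Nat.primeFactors_prime_pow two_ne_zero hl]
  ext q
  simp only [Finset.mem_erase, Finset.mem_union, Finset.mem_singleton]
  tauto

end scale

/-- `hh` at `l` for `l² (4 M)` and the decomposition `M = M2 l^k` -/
theorem hh_l {d l k M2 : ℕ} (hl : l.Prime) (hl2 : l ≠ 2) (hM2 : ¬ l ∣ M2) :
    hh (d * l) (4 * (l ^ 2 * (M2 * l ^ k))) l =
      jacobiSym (d : ℤ) l ^ k * jacobiSym (-(M2 : ℤ)) l ∨ (¬ Odd k ∧ l ∣ d) := by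
  have hM20 : M2 ≠ 0 := by rintro rfl; exact hM2 (dvd_zero l)
  have e1 : 4 * (l ^ 2 * (M2 * l ^ k)) = l ^ (k + 2) * (4 * M2) := by ring
  have hn : ¬ l ∣ 4 * M2 := by
    intro h
    rcases hl.dvd_mul.1 h with h1 | h1
    · exact nd4 hl hl2 (by exact_mod_cast h1)
    · exact hM2 h1
  have e2 : (4 * (l ^ 2 * (M2 * l ^ k))).factorization l = k + 2 := by
    rw [e1, Nat.factorization_mul (pow_ne_zero _ hl.ne_zero) (by omega), Finsupp.add_apply,
      Nat.factorization_eq_zero_of_not_dvd hn, Nat.Prime.factorization_pow hl,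
      Finsupp.single_eq_same]
  have e3 : 4 * (l ^ 2 * (M2 * l ^ k)) / l ^ (k + 2) = 4 * M2 := by
    rw [e1]; exact Nat.mul_div_cancel_left _ (pow_pos hl.pos _)
  have e4 : d * l / l = d := Nat.mul_div_cancel _ hl.pos
  have e5 : jacobiSym (-((4 * M2 : ℕ) : ℤ)) l = jacobiSym (-(M2 : ℤ)) l := by
    rw [show (-((4 * M2 : ℕ) : ℤ)) = 4 * (-(M2 : ℤ)) by push_cast; ring, jacobiSym.mul_left,
      jac4 hl hl2, one_mul]
  have e6 : jacobiSym (-((d * (4 * M2) : ℕ) : ℤ)) l = jacobiSym d l * jacobiSym (-(M2 : ℤ)) l := by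
    rw [show (-((d * (4 * M2) : ℕ) : ℤ)) = (d : ℤ) * (-((4 * M2 : ℕ) : ℤ)) by push_cast; ring,
      jacobiSym.mul_left, e5]
  unfold hh
  rw [e2, e3, e4, e5, e6]
  by_cases hld : l ∣ d
  · by_cases hk : Odd k
    · left
      have : ¬ Even (k + 2) := by
        rw [Nat.not_even_iff_odd]; exact hk.add_even (by decide)
      rw [if_neg this, jac_zero hl (Int.natCast_dvd_natCast.2 hld), zero_mul,
        zero_pow hk.pos.ne', zero_mul]
    · exact Or.inr ⟨hk, hld⟩
  · left
    have h7 := jac_sq hl (nd_int hld)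
    by_cases hk : Even k
    · have : Even (k + 2) := hk.add (by decide)
      obtain ⟨j, rfl⟩ := hk
      rw [if_pos this, ← two_mul, pow_mul, h7, one_pow, one_mul]
    · rw [Nat.not_even_iff_odd] at hk
      have : ¬ Even (k + 2) := by
        rw [Nat.not_even_iff_odd]; exact hk.add_even (by decide)
      obtain ⟨j, rfl⟩ := hk
      rw [if_neg this, pow_succ, pow_mul, h7, one_pow, one_mul]

/-- **the sum over the roots** -/
theorem sum_rho {N D d e l M : ℕ} {t : ℤ} (hd : Squarefree d) (h4 : d * l % 4 = 3) (hl : l.Prime)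
    (hl2 : l ≠ 2) (hld : ¬ l ∣ d) (hj : jacobiSym D l = 1) (hlN : ¬ l ∣ N) (hM : M ≠ 0)
    (hdisc : t ^ 2 + 4 * M = D) (he : e ∣ D) (hej : jacobiSym e l = jacobiSym d l) :
    jacobiSym d l * ∑ a ∈ M.divisors.filter (N ∣ ·), pw D d a M * rho l a (M / a) t =
      sj D e l (l * t) * (1 + hh (d * l) (4 * (l ^ 2 * M)) l) * W N D d l M := by
  have hlp := Nat.prime_iff_prime_int.1 hl
  have h2d : ¬ 2 ∣ d := by
    rintro ⟨c, rfl⟩
    rw [mul_assoc] at h4
    omega
  have hlD : ¬ (l : ℤ) ∣ (D : ℤ) := by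
    intro h
    rw [jac_zero hl h] at hj
    norm_num at hj
  have hlD' : ¬ l ∣ D := fun h => hlD (Int.natCast_dvd_natCast.2 h)
  have hle : ¬ (l : ℤ) ∣ (e : ℤ) := fun h => hlD' ((Int.natCast_dvd_natCast.1 h).trans he)
  have hpw : ∀ a : ℕ, pw D d a M = Pw d M a := fun a => pw_Pw h2d
  simp only [hpw]
  have h4' := nd4 hl hl2
  have h2' := nd2 hl hl2
  rw [W_fO h2d]
  simp only [fO_Pw]
  by_cases hlM : l ∣ M
  · -- `l ∣ M`
    obtain ⟨k, M2, hM2, hMk⟩ := Nat.exists_eq_pow_mul_and_not_dvd hM l hl.one_lt.ne'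
    have hk : 0 < k := by
      rcases Nat.eq_zero_or_pos k with h | h
      · rw [h, pow_zero, one_mul] at hMk
        exact absurd (hMk ▸ hlM) hM2
      · exact h
    rw [mul_comm] at hMk
    have hlt : ¬ (l : ℤ) ∣ t := by
      intro h
      apply hlD
      rw [← hdisc]
      exact (dvd_pow h two_ne_zero).add ((Int.natCast_dvd_natCast.2 hlM).mul_left 4)
    have hM20 : M2 ≠ 0 := by rintro rfl; exact hM2 (dvd_zero l)
    have hQ : ∀ x, N ∣ x * l ^ k ↔ N ∣ x := fun x => by
      have hc : Nat.Coprime N (l ^ k) := Nat.Coprime.pow_right _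
        ((Nat.Prime.coprime_iff_not_dvd hl).2 hlN).symm
      exact ⟨fun h => hc.dvd_of_dvd_mul_right h, fun h => h.mul_right _⟩
    have hlk : 0 < l ^ k := pow_pos hl.pos k
    have hdk : l ∣ l ^ k := dvd_pow_self l hk.ne'
    -- the value of `rho`
    have r1 : ∀ a, ¬ l ∣ a → l ∣ M / a → rho l a (M / a) t = jacobiSym (a * t) l := by
      intro a h1 h2
      refine rho_lin hl (nd_int h1) hlt _ fun u hu => ?_
      have e1 : (a : ℤ) * u ^ 2 - t * u - ((M / a : ℕ) : ℤ) =
          u * (a * u - t) - ((M / a : ℕ) : ℤ) := by ring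
      rw [e1]
      constructor
      · intro h3
        have h4 : (l : ℤ) ∣ u * (a * u - t) := by
          have := h3.add (Int.natCast_dvd_natCast.2 h2)
          simpa using this
        exact (hlp.dvd_mul.1 h4).resolve_left hu
      · exact fun h3 => (h3.mul_left _).sub (Int.natCast_dvd_natCast.2 h2)
    have r2 : ∀ a, l ∣ a → ¬ l ∣ M / a → rho l a (M / a) t =
        jacobiSym (t * (-((M / a : ℕ) : ℤ))) l := by
      intro a h1 h2
      have h2n : ¬ (l : ℤ) ∣ -((M / a : ℕ) : ℤ) := fun h => h2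
        (Int.natCast_dvd_natCast.1 (by simpa using (dvd_neg.2 h)))
      refine rho_lin hl hlt h2n _ fun u _ => ?_
      have e1 : (a : ℤ) * u ^ 2 - t * u - ((M / a : ℕ) : ℤ) =
          a * u ^ 2 - (t * u - -((M / a : ℕ) : ℤ)) := by ring
      rw [e1]
      have h3 : (l : ℤ) ∣ a * (u : ℤ) ^ 2 := (Int.natCast_dvd_natCast.2 h1).mul_right _
      constructor
      · intro h5
        have := h3.sub h5
        simpa using this
      · exact fun h5 => h3.sub h5
    have r3 : ∀ a, l ∣ a → l ∣ M / a → rho l a (M / a) t = 0 := by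
      intro a h1 h2
      unfold rho
      rw [Finset.filter_false_of_mem, Finset.sum_empty]
      intro u hu h3
      have hu' := ((mem_un hl).1 hu).2
      have h5 : (l : ℤ) ∣ t * u := by
        have e1 : t * (u : ℤ) = a * u ^ 2 - ((M / a : ℕ) : ℤ) -
          ((a : ℤ) * u ^ 2 - t * u - ((M / a : ℕ) : ℤ)) := by ring
        rw [e1]
        exact (((Int.natCast_dvd_natCast.2 h1).mul_right _).sub
          (Int.natCast_dvd_natCast.2 h2)).sub h3
      exact ndm hl hlt hu' h5
    -- the left side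
    have hL := sum_two hl hk hMk hM2 (N ∣ ·) hQ (fun a => Pw d M a * rho l a (M / a) t)
      (by
        intro a ha h1 h2
        obtain ⟨b, hb⟩ := ha
        have ha0 : 0 < a := Nat.pos_of_ne_zero (by rintro rfl; rw [zero_mul] at hb; exact hM hb)
        have e1 : M / a = b := by rw [hb]; exact Nat.mul_div_cancel_left _ ha0
        have h3 : l ∣ M / a := by
          rw [e1]
          by_contra h4
          apply h2
          have h5 : l ^ k ∣ a * b := by rw [← hb, hMk]; exact dvd_mul_left _ _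
          exact Nat.Coprime.dvd_of_dvd_mul_right
            (Nat.Coprime.pow_left k ((Nat.Prime.coprime_iff_not_dvd hl).2 h4)) h5
        show Pw d M a * rho l a (M / a) t = 0
        rw [r3 a h1 h3, mul_zero])
    have hR := sum_two hl hk hMk hM2 (N ∣ ·) hQ (fun a => jacobiSym a l * Pw d M a)
      (by
        intro a _ h1 _
        show jacobiSym a l * Pw d M a = 0
        rw [jac_zero hl (Int.natCast_dvd_natCast.2 h1), zero_mul])
    rw [hL, hR]
    -- sign
    have hdiv : (l : ℤ) ∣ t ^ 2 - D := by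
      have : t ^ 2 - (D : ℤ) = -(4 * M) := by rw [← hdisc]; ring
      rw [this]
      exact dvd_neg.2 ((Int.natCast_dvd_natCast.2 hlM).mul_left 4)
    have hsj : sj D e l (l * t) = jacobiSym e l * jacobiSym t l := by
      refine sj_val hl ?_ (root_ex hl he hlD' (r := 0) (by simpa using dvd_neg.2 hdiv)) fun c hc =>
        (sj_root hl hl2 he hj hc).2 hdiv
      rw [← jacobiSym.mul_left]
      exact js_pm hl (ndm hl hle hlt)
    have hhl : hh (d * l) (4 * (l ^ 2 * M)) l =
        jacobiSym (d : ℤ) l ^ k * jacobiSym (-(M2 : ℤ)) l := by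
      rw [hMk]
      exact (hh_l hl hl2 hM2).resolve_right fun h => hld h.2
    rw [hsj, hej, hhl, Finset.mul_sum, Finset.mul_sum]
    refine Finset.sum_congr rfl fun a ha => ?_
    obtain ⟨b, hb⟩ := Nat.dvd_of_mem_divisors (Finset.mem_of_mem_filter a ha)
    have ha0 : 0 < a := Nat.pos_of_ne_zero (by rintro rfl; rw [zero_mul] at hb; exact hM20 hb)
    have e1 : M / a = b * l ^ k := by
      rw [hMk, hb, mul_assoc]; exact Nat.mul_div_cancel_left _ ha0
    have e2 : M / (a * l ^ k) = b := by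
      rw [hMk, hb, show a * b * l ^ k = a * l ^ k * b by ring]
      exact Nat.mul_div_cancel_left _ (Nat.mul_pos ha0 hlk)
    have na : ¬ l ∣ a := fun h => hM2 (hb ▸ h.mul_right b)
    have nb : ¬ l ∣ b := fun h => hM2 (hb ▸ h.mul_left a)
    have hP : Pw d M (a * l ^ k) = Pw d M a * jacobiSym (l : ℤ) d ^ k := by
      unfold Pw
      rw [← jac_prod (l : ℤ) hd, ← Finset.prod_pow, ← Finset.prod_mul_distrib]
      refine Finset.prod_congr rfl fun p hp => ?_
      have hpp := Nat.prime_of_mem_primeFactors hp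
      have hpl : ¬ p ∣ l := fun h => hld (((Nat.prime_dvd_prime_iff_eq hpp hl).1 h) ▸
        Nat.dvd_of_mem_primeFactors hp)
      have hiff : p ∣ a * l ^ k ↔ p ∣ a := ⟨fun h => (hpp.dvd_mul.1 h).resolve_right
        fun h1 => hpl (hpp.dvd_of_dvd_pow h1), fun h => h.mul_right _⟩
      have hs := jsq hpp hpl
      rw [e1, e2]
      by_cases hpa : p ∣ a
      · rw [if_pos (hiff.2 hpa), if_pos hpa,
          show (-((b * l ^ k : ℕ) : ℤ)) = (-(b : ℤ)) * (l : ℤ) ^ k by push_cast; ring,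
          jacobiSym.mul_left, jacobiSym.pow_left, mul_assoc, ← mul_pow, hs, one_pow, mul_one]
      · rw [if_neg (fun h => hpa (hiff.1 h)), if_neg hpa, Nat.cast_mul, Nat.cast_pow,
          jacobiSym.mul_left, jacobiSym.pow_left]
    have hrec : jacobiSym (l : ℤ) d = jacobiSym (d : ℤ) l := (recip h4).symm
    show jacobiSym d l * (Pw d M a * rho l a (M / a) t +
      Pw d M (a * l ^ k) * rho l (a * l ^ k) (M / (a * l ^ k)) t) = _
    rw [hP, r1 a na (by rw [e1]; exact hdk.mul_left b), r2 (a * l ^ k) (hdk.mul_left a)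
      (by rw [e2]; exact nb), e2, hrec]
    have e3 : jacobiSym ((a * l ^ k : ℕ) : ℤ) l = 0 :=
      jac_zero hl (Int.natCast_dvd_natCast.2 (hdk.mul_left a))
    have e4 : jacobiSym (-(M2 : ℤ)) l = jacobiSym (a : ℤ) l * jacobiSym (-(b : ℤ)) l := by
      rw [← jacobiSym.mul_left, hb]
      congr 1
      push_cast; ring
    have e5 := jsq hl na
    rw [e3, e4, jacobiSym.mul_left, jacobiSym.mul_left]
    linear_combination (-(jacobiSym d l * jacobiSym t l * jacobiSym d l ^ k *
      jacobiSym (-(b : ℤ)) l * Pw d M a)) * e5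
  · -- `l ∤ M`
    obtain ⟨s, hs⟩ := exists_sq hl hj
    have hs0 : ¬ (l : ℤ) ∣ s := by
      intro h
      apply hlD
      have : (D : ℤ) = s ^ 2 - (s ^ 2 - D) := by ring
      rw [this]
      exact (dvd_pow h two_ne_zero).sub hs
    have hhl : hh (d * l) (4 * (l ^ 2 * M)) l = jacobiSym (-(M : ℤ)) l := by
      have h := (hh_l (d := d) (k := 0) hl hl2 hlM).resolve_right fun h => hld h.2
      rwa [pow_zero, pow_zero, mul_one, one_mul] at h
    have hnd : ¬ (l : ℤ) ∣ t ^ 2 - D := by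
      intro h
      apply hlM
      have h5 : (l : ℤ) ∣ 4 * M := by
        have : 4 * (M : ℤ) = -(t ^ 2 - D) := by rw [← hdisc]; ring
        rw [this]; exact dvd_neg.2 h
      exact Int.natCast_dvd_natCast.1 ((hlp.dvd_mul.1 h5).resolve_left h4')
    have hterm : ∀ a ∈ M.divisors.filter (N ∣ ·), Pw d M a * rho l a (M / a) t =
        (jacobiSym 2 l * jacobiSym (t + s) l * (1 + jacobiSym (-(M : ℤ)) l)) *
          (jacobiSym a l * Pw d M a) := by
      intro a ha
      obtain ⟨b, hb⟩ := Nat.dvd_of_mem_divisors (Finset.mem_of_mem_filter a ha)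
      have ha0 : 0 < a := Nat.pos_of_ne_zero (by rintro rfl; rw [zero_mul] at hb; exact hM hb)
      have e1 : M / a = b := by rw [hb]; exact Nat.mul_div_cancel_left _ ha0
      have na : ¬ l ∣ a := fun h => hlM (hb ▸ h.mul_right b)
      have nb : ¬ l ∣ b := fun h => hlM (hb ▸ h.mul_left a)
      have hab : ((a : ℤ) * b) = M := by rw [hb]; push_cast; ring
      rw [e1, rho_two hl hl2 na nb (s := s) (by rw [hab, hdisc]; exact hs) hs0, hab,
        jacobiSym.mul_left]
      ring
    rw [Finset.sum_congr rfl hterm, ← Finset.mul_sum, hhl]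
    have hlM' : ¬ (l : ℤ) ∣ -(M : ℤ) := fun h =>
      hlM (Int.natCast_dvd_natCast.1 (by simpa using (dvd_neg.2 h)))
    rcases js_pm hl hlM' with h5 | h5
    · have hts : ¬ (l : ℤ) ∣ t + s := by
        intro h
        apply hnd
        have : t ^ 2 - D = (t + s) * (t - s) + (s ^ 2 - D) := by ring
        rw [this]
        exact (h.mul_right _).add hs
      have hsj : sj D e l (l * t) = jacobiSym e l * jacobiSym (2 * (t + s)) l := by
        have hsq : jacobiSym (t ^ 2 - D) l = 1 := by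
          have : t ^ 2 - (D : ℤ) = 4 * (-(M : ℤ)) := by rw [← hdisc]; ring
          rw [this, jacobiSym.mul_left, jac4 hl hl2, h5, one_mul]
        obtain ⟨r, hr⟩ := exists_sq hl hsq
        refine sj_val hl ?_ (root_ex hl he hlD' hr) fun c hc =>
          (sj_root hl hl2 he hj hc).1 s hs hnd
        rw [← jacobiSym.mul_left]
        exact js_pm hl (ndm hl hle (ndm hl h2' hts))
      rw [hsj, hej, jacobiSym.mul_left 2 (t + s)]
      ring
    · rw [h5]; ring

end Pool.Agent.N816.RQ
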