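import Pool.Agent.N816.RQ.Odd
import Pool.Agent.N218.RQ.Eisj

/-!
# Project RQ: the divisor sums of `d` and `D / d` agree (helper816)
-/

set_option autoImplicit false

namespace Pool.Agent.N816.RQ

open Finset
open Pool.Agent.N969.P15 (c2 tw)
open Pool.Agent.N969.P17G (gen starP)
open Pool.Agent.N969.RQ (W Fd Un sgd ps nn)
open Pool.Agent.N975.Sym (ev act)
open Pool.Agent.N975.PG (jac_zero jac_sq jac_congr jac_prod)
open Pool.Agent.N975.RQ (f2 g2 gc_g2 c2_compat fd_sq fd_pos fd_two ps_eq mem_erase ps_sw)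

/-- a form of discriminant `D l²` comes from one of discriminant `D` -/
theorem lift {D l : ℕ} (hl : l.Prime) (hl2 : l ≠ 2) {a t c' : ℤ}
    (h : t ^ 2 - 4 * a * c' = D * l ^ 2) (ht : ¬ (l : ℤ) ∣ t) (hla : ¬ (l : ℤ) ∣ a) :
    ∃ b c u : ℤ, b ^ 2 - 4 * a * c = D ∧ t = 2 * a * u + b * l ∧
      c' = a * u ^ 2 + b * u * l + c * l ^ 2 ∧ ¬ (l : ℤ) ∣ u := by
  have hlp : Prime (l : ℤ) := Nat.prime_iff_prime_int.1 hl
  have hl0 : (l : ℤ) ≠ 0 := hlp.ne_zero
  have h2a : ¬ (l : ℤ) ∣ 2 * a := by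
    intro h1
    rcases hlp.dvd_mul.1 h1 with h2 | h2
    · have h3 : l ∣ 2 := by exact_mod_cast h2
      exact hl2 ((Nat.prime_dvd_prime_iff_eq hl Nat.prime_two).1 h3)
    · exact hla h2
  obtain ⟨r, s, hrs⟩ : IsCoprime (2 * a) (l : ℤ) := (hlp.coprime_iff_not_dvd.2 h2a).symm
  -- `r * (2 a) + s * l = 1`
  set u := r * t with hu
  have hb : t = 2 * a * u + (s * t) * l := by rw [hu]; linear_combination (-t) * hrs
  set b := s * t with hbdef
  have key : 4 * a * (c' - a * u ^ 2 - b * u * l) = (b ^ 2 - D) * l ^ 2 := by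
    have h1 : t ^ 2 = (2 * a * u + b * l) ^ 2 := by rw [← hb]
    linear_combination (-1 : ℤ) * h + h1
  have h4a : IsCoprime ((l : ℤ) ^ 2) (4 * a) := by
    apply IsCoprime.pow_left
    refine hlp.coprime_iff_not_dvd.2 fun h1 => ?_
    apply h2a
    rcases hlp.dvd_mul.1 (show (l : ℤ) ∣ 2 * (2 * a) by rw [← mul_assoc]; exact h1) with h2 | h2
    · exact h2.mul_right a
    · exact h2
  obtain ⟨c, hc⟩ : (l : ℤ) ^ 2 ∣ c' - a * u ^ 2 - b * u * l :=
    h4a.dvd_of_dvd_mul_left ⟨b ^ 2 - D, by rw [key]; ring⟩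
  refine ⟨b, c, u, ?_, hb, ?_, ?_⟩
  · rw [hc] at key
    have h2 : ((l : ℤ) ^ 2) * (4 * a * c) = (l : ℤ) ^ 2 * (b ^ 2 - D) := by linear_combination key
    have h3 := mul_left_cancel₀ (pow_ne_zero 2 hl0) h2
    linear_combination -h3
  · linear_combination hc
  · intro h1
    apply ht
    rw [hb]
    exact (h1.mul_left (2 * a)).add (dvd_mul_left _ _)

/-- the genus characters of a form of discriminant `D l²` and of the form it comes from -/
theorem ps_lift {D d l : ℕ} (hD : Fd D) (hd : d ∣ D) (hl : l.Prime) (hl2 : l ≠ 2)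
    (hlD : ¬ l ∣ D) {a b c u t c' : ℤ} (h1 : b ^ 2 - 4 * a * c = D)
    (h3 : c' = a * u ^ 2 + b * u * l + c * l ^ 2) (h4 : ¬ (l : ℤ) ∣ u)
    (h5 : t ^ 2 - 4 * a * c' = D * l ^ 2) :
    ps D d (a, t, c') = ps D d (a, b, c) := by
  have hlp : Prime (l : ℤ) := Nat.prime_iff_prime_int.1 hl
  rw [ps_eq, ps_eq]
  congr 1
  · unfold f2
    by_cases h2d : 2 ∣ d
    · rw [if_pos h2d, if_pos h2d]
      by_cases h2a : (2 : ℤ) ∣ a
      · obtain ⟨r, s, hrs⟩ : IsCoprime u (l : ℤ) := (hlp.coprime_iff_not_dvd.2 h4).symm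
        have hdet : u * r - (-s) * l = 1 := by linear_combination hrs
        have h6 := (gc_g2 (c2_compat hD (h2d.trans hd))).inv hdet (a, b, c) h1
        have e1 : (act u (-s) l r (a, b, c)).1 = c' := by
          rw [h3]; unfold act; ring
        have hodd : ¬ (2 : ℤ) ∣ c' := by
          rintro ⟨k, hk⟩
          obtain ⟨j, hj⟩ := h2a
          have h7 := fd_two hD (h2d.trans hd)
          have h8 : (D : ℤ) * l ^ 2 = t ^ 2 - 16 * (j * k) := by rw [← h5, hj, hk]; ring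
          have h9 : (l : ℤ) % 2 = 1 := by
            have := hl.eq_two_or_odd.resolve_left hl2
            omega
          obtain ⟨x, hx⟩ : ∃ x : ℤ, (l : ℤ) = 2 * x + 1 := ⟨l / 2, by omega⟩
          have h10 : (l : ℤ) ^ 2 % 8 = 1 := by
            rw [hx]
            have : (x * (x + 1)) % 2 = 0 := Int.even_iff.1 (Int.even_mul_succ_self x)
            obtain ⟨y, hy⟩ : (2 : ℤ) ∣ x * (x + 1) := Int.dvd_of_emod_eq_zero this
            have : (2 * x + 1) ^ 2 = 8 * y + 1 := by linear_combination 4 * hy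
            omega
          obtain ⟨y, hy⟩ : ∃ y : ℤ, (l : ℤ) ^ 2 = 8 * y + 1 := ⟨(l : ℤ) ^ 2 / 8, by omega⟩
          obtain ⟨D', hD'⟩ : ∃ D' : ℤ, (D : ℤ) = 4 * D' := ⟨D / 4, by omega⟩
          have h11 : t ^ 2 = 16 * (j * k) + 4 * D' * (8 * y + 1) := by
            rw [← hy, ← hD']; linear_combination -h8
          have h12 : (2 : ℤ) ∣ t := by
            have : (2 : ℤ) ∣ t * t := ⟨8 * (j * k) + 2 * D' * (8 * y + 1), by
              rw [← sq, h11]; ring⟩
            rcases Int.prime_two.dvd_mul.1 this with h | h <;> exact h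
          obtain ⟨t', rfl⟩ := h12
          have h13 : t' ^ 2 = 4 * (j * k + 2 * D' * y) + D' := by linarith [h11]
          rcases Int.even_or_odd' t' with ⟨z, hz | hz⟩
          · rw [hz] at h13
            have : D' = 4 * (z ^ 2 - (j * k + 2 * D' * y)) := by linear_combination -h13
            omega
          · rw [hz] at h13
            have : D' = 4 * (z ^ 2 + z - (j * k + 2 * D' * y)) + 1 := by linear_combination -h13
            omega
        rw [← h6]
        unfold g2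
        rw [if_pos h2a, e1, if_neg hodd]
      · unfold g2
        rw [if_neg h2a, if_neg h2a]
    · rw [if_neg h2d, if_neg h2d]
  · refine Finset.prod_congr rfl fun p hp => ?_
    obtain ⟨hp1, hp2, hp3⟩ := mem_erase hp
    have hpp : Prime (p : ℤ) := Nat.prime_iff_prime_int.1 hp1
    unfold Pool.Agent.N975.PG.gp
    by_cases hpa : (p : ℤ) ∣ a
    · rw [if_pos hpa, if_pos hpa]
      show jacobiSym c' p = jacobiSym c p
      have hpb : (p : ℤ) ∣ b := by
        apply hpp.dvd_of_dvd_pow (n := 2)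
        have e : b ^ 2 = D + 4 * a * c := by linear_combination h1
        rw [e]
        exact (by exact_mod_cast hp3.trans hd : (p : ℤ) ∣ D).add ((hpa.mul_left 4).mul_right c)
      have e : jacobiSym c' p = jacobiSym (c * l ^ 2) p := by
        apply jac_congr
        rw [h3]
        have e2 : a * u ^ 2 + b * u * l + c * l ^ 2 - c * l ^ 2 = a * u ^ 2 + b * (u * l) := by ring
        rw [e2]
        exact (hpa.mul_right _).add (hpb.mul_right _)
      have hpl : ¬ (p : ℤ) ∣ l := by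
        intro h6
        have h7 : p = l := (Nat.prime_dvd_prime_iff_eq hp1 hl).1 (by exact_mod_cast h6)
        exact hlD (h7 ▸ hp3.trans hd)
      rw [e, jacobiSym.mul_left, jacobiSym.pow_left, jac_sq hp1 hpl, mul_one]
    · rw [if_neg hpa, if_neg hpa]

/-- the summand of `W` -/
theorem W_eq {N D d l M : ℕ} (t : ℤ) :
    W N D d l M = ∑ a ∈ M.divisors.filter (N ∣ ·), jacobiSym a l *
      ps D d ((a : ℤ), t, -((M / a : ℕ) : ℤ)) := by
  unfold W ps
  refine Finset.sum_congr rfl fun a _ => ?_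
  congr 1
  congr 1
  · by_cases h : 2 ∣ d
    · rw [if_pos h, if_pos h]
      have : (2 ∣ a) ↔ ((2 : ℤ) ∣ (a : ℤ)) := by norm_cast
      simp only [this]
    · rw [if_neg h, if_neg h]
  · refine Finset.prod_congr rfl fun p _ => ?_
    unfold gen
    have : (p ∣ a) ↔ ((p : ℤ) ∣ (a : ℤ)) := Int.natCast_dvd_natCast.symm
    simp only [this]

theorem lM {D l M : ℕ} {t : ℤ} (hl : l.Prime) (h : t ^ 2 + 4 * M = D * l ^ 2)
    (ht : ¬ (l : ℤ) ∣ t) : ¬ l ∣ M := by
  intro h1
  apply ht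
  have hlp : Prime (l : ℤ) := Nat.prime_iff_prime_int.1 hl
  apply hlp.dvd_of_dvd_pow (n := 2)
  have e : t ^ 2 = D * l ^ 2 - 4 * M := by linear_combination h
  rw [e]
  exact ((dvd_pow_self _ two_ne_zero).mul_left _).sub
    ((Int.natCast_dvd_natCast.2 h1).mul_left 4)

/-- **the divisor sums of `d` and `D / d` agree** -/
theorem W_sw {N D d l M : ℕ} {t : ℤ} (hD : Fd D) (hd : Un D d) (hl : l.Prime) (hl2 : l ≠ 2)
    (hlD : ¬ l ∣ D) (h : t ^ 2 + 4 * M = D * l ^ 2) (ht : ¬ (l : ℤ) ∣ t) :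
    W N D (D / d) l M = W N D d l M := by
  rw [W_eq t, W_eq t]
  refine Finset.sum_congr rfl fun a ha => ?_
  have haM := Nat.dvd_of_mem_divisors (Finset.mem_of_mem_filter a ha)
  congr 1
  have hla : ¬ (l : ℤ) ∣ (a : ℤ) := fun h1 =>
    lM hl h ht ((Int.natCast_dvd_natCast.1 h1).trans haM)
  have h5 : t ^ 2 - 4 * (a : ℤ) * (-((M / a : ℕ) : ℤ)) = D * l ^ 2 := by
    rw [← h]
    have : ((a * (M / a) : ℕ) : ℤ) = M := by rw [Nat.mul_div_cancel' haM]
    rw [← this]; push_cast; ring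
  obtain ⟨b, c, u, k1, k2, k3, k4⟩ := lift hl hl2 h5 ht hla
  rw [ps_lift hD (Nat.div_dvd_of_dvd hd.1) hl hl2 hlD k1 k3 k4 h5,
    ps_lift hD hd.1 hl hl2 hlD k1 k3 k4 h5]
  exact ps_sw hD hd k1

end Pool.Agent.N816.RQ
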